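import Pool.Agent.Helper34.GE.Prp

set_option autoImplicit false

/-!
Project GF: the results of project GE with a parameter `σ`, `0 < σ ≤ 1 / 50`, in place of `1 / 50`: the primes `k` are
between `N ^ (σ / 40)` and `N ^ σ`, the moduli are `q ≤ N ^ (1 - σ - ρ)`. The definitions `Ea`, `GM`, `Sa`, `HM`, `fm`,
`Win` are those of project GE.

Dictionary (GE -> GF): `1 / 2000` -> `σ / 40`; `1 / 50` -> `σ`; `49 / 50` -> `1 - σ`; `-(7 / 25)` -> `σ - 3 / 10`;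
the exponent `100` of the level of the model in MH, NH -> `M` with `2 ≤ σ * M`; the bound `5` for the density stays.
-/

namespace Pool.Agent.Helper34.GF

open Finset
open Pool.Agent.Y883.GJ
open Pool.Agent.Y883.T3 (lsh)
open Pool.Agent.H373R2.T7 (lamz Vz pz)
open Pool.Agent.R460.GR (Bd)
open Pool.Agent.R460.GS (BdAt MajAt MinAt ShAt ApAt NcAt cv la)
open Pool.Agent.H560R3.GB (sing)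
open Pool.Agent.Y883.T4 (badc)
open Pool.Agent.Helper34.GE (Ea GM Sa HM fm Win)

/-- admissible coefficients: real, bounded by `1`, on the primes between `N ^ (σ / 40)` and `N ^ σ` -/
structure Adm (σ : ℝ) (N : ℕ) (a : ℕ → ℝ) : Prop where
  h1 : ∀ k, |a k| ≤ 1
  h2 : ∀ k, a k ≠ 0 → k.Prime ∧ (N : ℝ) ^ (σ / 40) < k ∧ (k : ℝ) ≤ (N : ℝ) ^ σ

/-- FMODEL (port of `Y918.GJ.model'`, the exponent 100 of `choice` is a parameter): the model with any small level -/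
def ModelMStm : Prop := ∀ M U : ℕ, ∃ B : ℕ, ∀ E : ℕ, ∃ N₀ : ℕ, ∀ N : ℕ, N₀ ≤ N → ∀ z : ℕ,
  Real.log N ^ B ≤ z → (z : ℝ) ≤ Real.log N ^ E → ∃ r : ℕ, Par U N z r ∧ ((((z + 1) ^ r) ^ M : ℕ) : ℝ) ≤ N ∧
    ∑ n ∈ Icc 1 N, |lamz z n - lsh z r n| ≤ N / Real.log N ^ U

/-- FSA -/
def SaStm (σ : ℝ) : Prop := ∃ N₀ : ℕ, ∀ N : ℕ, N₀ ≤ N → ∀ a : ℕ → ℝ, Adm σ N a → |Sa N a| ≤ 5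

/-- FMAJ -/
def MajStm (σ : ℝ) : Prop := ∀ (A C : ℕ) (ρ : ℝ), 0 < ρ → ∃ C₃ N₀ : ℕ, ∀ N : ℕ, N₀ ≤ N → ∀ a : ℕ → ℝ, Adm σ N a →
  MajAt N (σ - 3 / 10 + ρ) A C C₃ (GM a)

/-- FMIN -/
def MinStm (σ : ℝ) : Prop := ∀ (A : ℕ) (ρ : ℝ), 0 < ρ → ∃ C N₀ : ℕ, ∀ N : ℕ, N₀ ≤ N → ∀ a : ℕ → ℝ, Adm σ N a →
  MinAt N (σ - 3 / 10 + ρ) A C (GM a)

/-- FMOD: the model on the major arcs; to be proved for `0 < σ` and `2 ≤ σ * M` -/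
def MHStm (σ : ℝ) (M : ℕ) : Prop := ∀ (A C : ℕ) (ρ : ℝ), 0 < ρ → ∃ N₀ : ℕ, ∀ N : ℕ, N₀ ≤ N → ∀ s : ℝ, |s| ≤ 5 →
    ∀ (q : ℕ) [NeZero q], (q : ℝ) ≤ (N : ℝ) ^ (7 / 10 - (σ - 3 / 10 + ρ)) → ∀ z r : ℕ,
    ((((z + 1) ^ r) ^ M : ℕ) : ℝ) ≤ N → (Vz z)⁻¹ ≤ Real.log N →
    ∀ η : ℝ, |η| ≤ Real.log N ^ C / N → ∀ y : ℕ, y ≤ N →
    ∀ S : Finset (DirichletCharacter ℂ q), 1 ∉ S →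
      ∑ χ ∈ S, ‖cs q y (fun n => ((s * lsh z r n : ℝ) : ℂ)) η χ‖ ^ 2 ≤ (N : ℝ) ^ 2 / Real.log N ^ A

/-- FMOD: the model on the minor arcs; to be proved for `0 < σ` and `2 ≤ σ * M` -/
def NHStm (σ : ℝ) (M : ℕ) : Prop := ∀ (A : ℕ) (ρ : ℝ), 0 < ρ → ∃ C N₀ : ℕ, ∀ N : ℕ, N₀ ≤ N → ∀ s : ℝ, |s| ≤ 5 →
    ∀ z r : ℕ, ((((z + 1) ^ r) ^ M : ℕ) : ℝ) ≤ N → (Vz z)⁻¹ ≤ Real.log N →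
    MinAt N (σ - 3 / 10 + ρ) A C (fun n => ((s * lsh z r n : ℝ) : ℂ))

/-- FAP -/
def ApmStm (σ : ℝ) : Prop := ∀ K U : ℕ, ∃ N₀ : ℕ, ∀ N : ℕ, N₀ ≤ N → ∀ a : ℕ → ℝ, Adm σ N a →
  ∀ r : ℕ, 1 ≤ r → (r : ℝ) ≤ Real.log N ^ K →
  ∀ c y : ℕ, y ≤ N → |∑ n ∈ (Icc 1 y).filter (fun n => n ≡ c [MOD r]), Ea a n -
    (if c.Coprime r then Sa N a * y / (Nat.totient r : ℝ) else 0)| ≤ N / Real.log N ^ U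

/-- FNC -/
def NcStm (σ : ℝ) : Prop := ∀ U : ℕ, ∃ N₀ : ℕ, ∀ N : ℕ, N₀ ≤ N → ∀ a : ℕ → ℝ, Adm σ N a → NcAt N U (GM a)

/-- FSH: correlations of `Λ` with shifted characters, moduli up to `N ^ (1 - σ - ρ)` -/
def ShStm (σ : ℝ) : Prop := ∀ (B C T : ℕ) (ρ : ℝ), 0 < ρ → ∃ K N₀ : ℕ, ∀ N : ℕ, N₀ ≤ N →
  ShAt N (σ - 3 / 10 + ρ) B C T K LA

/-- FR2 -/
def Bil4Stm (σ : ℝ) : Prop := ∀ (A C : ℕ) (ρ : ℝ), 0 < ρ → ∃ K₂ K N₀ : ℕ, ∀ N : ℕ, N₀ ≤ N →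
    ∀ (q : ℕ) [NeZero q], (q : ℝ) ≤ (N : ℝ) ^ (1 - σ - ρ) → ∀ a : ℕ → ℂ,
    (∀ m ∈ Icc 1 N, ‖a m‖ ≤ Real.log N * (m.divisors.card : ℝ)) →
    (∀ m, a m ≠ 0 → (N : ℝ) ^ (σ / 40) ≤ 2 * m ∧ (m : ℝ) ≤ (N : ℝ) ^ σ) →
    ∀ b : ℕ → ℂ, (∀ m ∈ Icc 1 N, ‖b m‖ ≤ Real.log N * (m.divisors.card : ℝ)) →
    ∀ η : ℝ, |η| ≤ Real.log N ^ C / N → ∀ y : ℕ, y ≤ N →
    ∀ S : Finset (DirichletCharacter ℂ q), (∀ χ ∈ S, ¬ Bd N K₂ K a q χ) →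
    ‖∑ m ∈ Icc 1 y, ∑ k ∈ Icc 1 (y / m), (a m * b k) • ev S η (m * k)‖ ^ 2 ≤
      (N : ℝ) ^ 2 / Real.log N ^ A

/-- FR3 -/
def Count4Stm (σ : ℝ) : Prop := ∀ (K₂ K : ℕ), ∃ C₃ N₀ : ℕ, ∀ N : ℕ, N₀ ≤ N → ∀ a : ℕ → ℂ,
    (∀ m ∈ Icc 1 N, ‖a m‖ ≤ Real.log N * (m.divisors.card : ℝ)) →
    (∀ m, a m ≠ 0 → (N : ℝ) ^ (σ / 40) ≤ 2 * m ∧ (m : ℝ) ≤ (N : ℝ) ^ σ) →
    ∀ Ψ : Finset (Σ f : ℕ, DirichletCharacter ℂ f),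
    (∀ ψ ∈ Ψ, 1 ≤ ψ.1 ∧ (ψ.1 : ℝ) ≤ (N : ℝ) ^ (1 - σ) ∧ ψ.2.IsPrimitive ∧ Bd N K₂ K a ψ.1 ψ.2) →
    (Ψ.card : ℝ) ≤ Real.log N ^ C₃

/-- FR4 -/
def MG4Stm (σ : ℝ) : Prop := ∀ (U : ℕ) (ρ : ℝ), 0 < ρ → ∃ C₄ N₀ : ℕ, ∀ N : ℕ, N₀ ≤ N → ∀ a : ℕ → ℝ, Adm σ N a →
    ∀ Ψ : Finset (Σ f : ℕ, DirichletCharacter ℂ f),
    (∀ ψ ∈ Ψ, 1 < ψ.1 ∧ (ψ.1 : ℝ) ≤ (N : ℝ) ^ (1 - σ - ρ) ∧ ψ.2.IsPrimitive ∧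
      ∃ y : ℕ, y ≤ N ∧ N / Real.log N ^ U < ‖∑ n ∈ Icc 1 y, GM a n * ψ.2 (n : ZMod ψ.1)‖) →
    (Ψ.card : ℝ) ≤ Real.log N ^ C₄

/-- FERR -/
def ErrStm (σ : ℝ) : Prop := ∀ (A T U₀ : ℕ) (ρ : ℝ), 0 < ρ → ∃ B : ℕ, ∀ E : ℕ, ∃ N₀ : ℕ, ∀ N : ℕ, N₀ ≤ N → ∀ z : ℕ,
  Real.log N ^ B ≤ z → (z : ℝ) ≤ Real.log N ^ E → ∃ r : ℕ, Par U₀ N z r ∧
    ∑ n ∈ Icc 1 N, |lamz z n - lsh z r n| ≤ N / Real.log N ^ U₀ ∧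
    ∀ a : ℕ → ℝ, Adm σ N a →
    ∀ (q : ℕ) [NeZero q], (q : ℝ) ≤ (N : ℝ) ^ (1 - σ - ρ) → ∀ c : ZMod q,
    (Nat.gcd c.val q : ℝ) ≤ Real.log N ^ T → ∀ y₁ y₂ : ℕ, y₁ ≤ N → y₂ ≤ N →
      ∑ n ∈ (Icc 1 (2 * N)).filter (fun n : ℕ => (n : ZMod q) = c),
        ‖cv LA (fm N a z r) y₁ y₂ n‖ ^ 2 ≤ (N : ℝ) ^ 3 / (q * Real.log N ^ A)

/-- FERRR -/
def ErrRStm (σ : ℝ) : Prop := ∀ (A U₀ : ℕ) (ρ : ℝ), 0 < ρ → ∃ c : ℕ, ∀ A₀ : ℕ, ∃ B : ℕ, ∀ E : ℕ, ∃ N₀ : ℕ,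
  ∀ N : ℕ, N₀ ≤ N → ∀ a : ℕ → ℝ, Adm σ N a →
  ∃ D : Finset ℕ, (D.card : ℝ) ≤ Real.log N ^ c ∧ (∀ d ∈ D, Real.log N ^ A₀ < (d : ℝ)) ∧
  ∀ z : ℕ, Real.log N ^ B ≤ z → (z : ℝ) ≤ Real.log N ^ E → ∃ r : ℕ, Par U₀ N z r ∧
    ∑ n ∈ Icc 1 N, |lamz z n - lsh z r n| ≤ N / Real.log N ^ U₀ ∧
    ∀ (q : ℕ) [NeZero q], (q : ℝ) ≤ (N : ℝ) ^ (1 - σ - ρ) → (∀ d ∈ D, ¬ d ∣ q) → ∀ c : ZMod q,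
    ∀ y₁ y₂ : ℕ, y₁ ≤ N → y₂ ≤ N →
      ∑ n ∈ (Icc 1 (2 * N)).filter (fun n : ℕ => (n : ZMod q) = c),
        ‖cv LA (fm N a z r) y₁ y₂ n‖ ^ 2 ≤ (N : ℝ) ^ 3 / (q * Real.log N ^ A)

/-- FGRID -/
def GridStm (σ : ℝ) : Prop := ∀ (V E1 : ℕ), V + 8 ≤ E1 → ∃ N₀ : ℕ, ∀ N : ℕ, N₀ ≤ N → ∀ a : ℕ → ℝ, Adm σ N a →
    ∀ z r : ℕ, Real.log N ^ E1 ≤ z → (z : ℝ) ≤ Real.log N ^ (E1 + 1) →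
    ∑ n ∈ Icc 1 N, |lamz z n - lsh z r n| ≤ N / Real.log N ^ (V + 6) →
    ∀ n : ℕ, n ≤ N → 2 ∣ n → n ≠ 0 → ∀ y : ℕ, y < n →
      ‖cv LA (fm N a z r) y N n‖ ≤ N / Real.log N ^ (V + 2) →
      |∑ b ∈ Icc 1 y, la b * Ea a (n - b) - sing n * Sa N a * y| ≤ N / Real.log N ^ V ∧ sing n ≤ 2 * Real.log N

/-- FMAIN -/
def MainStm (σ : ℝ) : Prop := ∀ (ρ : ℝ), 0 < ρ → ∀ A T V : ℕ,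
    ∃ N₀ : ℕ, ∀ N : ℕ, N₀ ≤ N → ∀ a : ℕ → ℝ, Adm σ N a →
      ∀ q : ℕ, 1 ≤ q → (q : ℝ) ≤ (N : ℝ) ^ (1 - σ - ρ) → ∀ c : ℕ,
      (Nat.gcd c q : ℝ) ≤ Real.log N ^ T →
        ((badc (Win V N a) N q c).card : ℝ) ≤ (N : ℝ) / (q * Real.log N ^ A)

/-- FMAINR -/
def MainRStm (σ : ℝ) : Prop := ∀ (ρ : ℝ), 0 < ρ → ∀ A V : ℕ, ∃ c : ℕ, ∀ A₀ : ℕ,
    ∃ N₀ : ℕ, ∀ N : ℕ, N₀ ≤ N → ∀ a : ℕ → ℝ, Adm σ N a → ∃ D : Finset ℕ, (D.card : ℝ) ≤ Real.log N ^ c ∧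
      (∀ d ∈ D, Real.log N ^ A₀ < (d : ℝ)) ∧
      ∀ q : ℕ, 1 ≤ q → (q : ℝ) ≤ (N : ℝ) ^ (1 - σ - ρ) → (∀ d ∈ D, ¬ d ∣ q) → ∀ c : ℕ,
        ((badc (Win V N a) N q c).card : ℝ) ≤ (N : ℝ) / (q * Real.log N ^ A)

end Pool.Agent.Helper34.GF
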