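import Pool.Agent.Helper34.GE.Swp
import Pool.Agent.Helper34.GF.Stm

set_option autoImplicit false

/-! Project GF: the convolution `Ea`, the support (helper14). -/

namespace Pool.Agent.Helper34.GF

open Finset Filter Topology
open Pool.Agent.Helper34.GE (Ea GM Sa HM fm Win)

lemma abs_Ea_le' {N : ℕ} {a : ℕ → ℝ} {σ : ℝ} (_ha : Adm σ N a) (n : ℕ) :
    |Ea a n| ≤ ∑ k ∈ n.divisors, |a k| * ArithmeticFunction.vonMangoldt (n / k) := by
  unfold Ea
  refine (abs_sum_le_sum_abs _ _).trans (le_of_eq (sum_congr rfl fun k _ => ?_))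
  rw [abs_mul, abs_of_nonneg ArithmeticFunction.vonMangoldt_nonneg]

/-- `Ea` is bounded by the logarithm -/
lemma abs_Ea_le {N : ℕ} {a : ℕ → ℝ} {σ : ℝ} (ha : Adm σ N a) (n : ℕ) : |Ea a n| ≤ Real.log n := by
  refine (abs_Ea_le' ha n).trans ?_
  calc ∑ k ∈ n.divisors, |a k| * ArithmeticFunction.vonMangoldt (n / k)
      ≤ ∑ k ∈ n.divisors, ArithmeticFunction.vonMangoldt (n / k) := by
        refine sum_le_sum fun k _ => ?_
        exact mul_le_of_le_one_left ArithmeticFunction.vonMangoldt_nonneg (ha.h1 k)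
    _ = ∑ k ∈ n.divisors, ArithmeticFunction.vonMangoldt k :=
        Nat.sum_div_divisors n (fun i => ArithmeticFunction.vonMangoldt i)
    _ = Real.log n := ArithmeticFunction.vonMangoldt_sum

lemma ebd {N n : ℕ} {a : ℕ → ℝ} {σ : ℝ} (ha : Adm σ N a) (hn : n ∈ Icc 1 N) : |Ea a n| ≤ Real.log N := by
  rw [mem_Icc] at hn
  refine (abs_Ea_le ha n).trans (Real.log_le_log (by exact_mod_cast hn.1) (by exact_mod_cast hn.2))

lemma ebd' {N n : ℕ} {a : ℕ → ℝ} {σ : ℝ} (ha : Adm σ N a) (hn : n ≤ N) : |Ea a n| ≤ Real.log N := by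
  rcases Nat.eq_zero_or_pos n with h | h
  · subst h
    refine (abs_Ea_le ha 0).trans ?_
    simp only [Nat.cast_zero, Real.log_zero]
    exact Real.log_natCast_nonneg _
  · exact ebd ha (mem_Icc.2 ⟨h, hn⟩)

/-- the support of the coefficients -/
lemma supp_card {N : ℕ} {a : ℕ → ℝ} {σ : ℝ} (ha : Adm σ N a) :
    (((Icc 1 N).filter (fun k => a k ≠ 0)).card : ℝ) ≤ (N : ℝ) ^ σ := by
  have h0 : (0 : ℝ) ≤ (N : ℝ) ^ σ := Real.rpow_nonneg (Nat.cast_nonneg _) _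
  have hsub : ((Icc 1 N).filter (fun k => a k ≠ 0)) ⊆ Icc 1 ⌊(N : ℝ) ^ σ⌋₊ := by
    intro k hk
    rw [mem_filter, mem_Icc] at hk
    rw [mem_Icc]
    exact ⟨hk.1.1, Nat.le_floor (ha.h2 k hk.2).2.2⟩
  have h1 := card_le_card hsub
  rw [Nat.card_Icc, Nat.add_sub_cancel] at h1
  have h2 : (((Icc 1 N).filter (fun k => a k ≠ 0)).card : ℝ) ≤ (⌊(N : ℝ) ^ σ⌋₊ : ℝ) := by
    exact_mod_cast h1
  exact h2.trans (Nat.floor_le h0)

end Pool.Agent.Helper34.GF
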