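import Pool.Graph.R_seed8.R460.GH.ML
import Pool.Agent.Helper34.GE.Emaj
import Pool.Agent.Helper34.GF.Stm

set_option autoImplicit false

/-! FMAJ: the function `Ea` on the major arcs. -/

namespace Pool.Agent.Helper34.GF

open Finset
open Pool.Agent.R460.GS (norm_ev1 MajAt)
open Pool.Agent.R460.GH (BilMaj3Stm)
open Pool.Agent.Y883.GJ
open Pool.Agent.Y614.GJ.Core (ev_log)
open Pool.Agent.Helper34.GE (Ea GM Sa HM fm Win aC lC lC_bd GM_cs)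

lemma fmaj_aC_bd {σ : ℝ} {N : ℕ} {a : ℕ → ℝ} (ha : Adm σ N a) (hL : 1 ≤ Real.log N) {m : ℕ} (hm : m ∈ Icc 1 N) :
    ‖aC a m‖ ≤ Real.log N * (m.divisors.card : ℝ) := by
  have h1 : (1 : ℝ) ≤ (m.divisors.card : ℝ) := by
    have : 0 < m.divisors.card := card_pos.2 ⟨1, Nat.one_mem_divisors.2 (by
      rw [mem_Icc] at hm
      omega)⟩
    exact_mod_cast this
  unfold aC
  rw [Complex.norm_real, Real.norm_eq_abs]
  have := ha.h1 m
  nlinarith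

lemma fmaj_aC_supp {σ : ℝ} {N : ℕ} {a : ℕ → ℝ} (ha : Adm σ N a) {m : ℕ} (hm : aC a m ≠ 0) :
    (N : ℝ) ^ (σ / 40) ≤ 2 * m ∧ (m : ℝ) ≤ (N : ℝ) ^ σ := by
  have h0 : a m ≠ 0 := fun h => hm (by unfold aC; rw [h, Complex.ofReal_zero])
  obtain ⟨h1, h2, h3⟩ := ha.h2 m h0
  have h5 : (0 : ℝ) ≤ m := Nat.cast_nonneg _
  exact ⟨by linarith, h3⟩

open Classical in
theorem fmaj {σ : ℝ} (hσ0 : 0 < σ) (hσ : σ ≤ 1 / 50) (_h1 : L2Stm) (hB : BilMaj3Stm) : MajStm σ := by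
  intro A C ρ hρ
  have hJ : 40 / σ ≤ (⌈40 / σ⌉₊ : ℝ) := Nat.le_ceil _
  have hJ1 : 1 ≤ ⌈40 / σ⌉₊ := Nat.one_le_ceil_iff.2 (by positivity)
  obtain ⟨C', N₁, hB'⟩ := hB A C ⌈40 / σ⌉₊ (1 - σ - ρ) (σ / 40) σ (by linarith)
    hJ1 (by
      have h2 : 40 / σ * (σ / 40) = 1 := by
        field_simp
      have h3 : 40 / σ * (σ / 40) ≤ (⌈40 / σ⌉₊ : ℝ) * (σ / 40) := by gcongr
      linarith) (by linarith) (by linarith) (by linarith)
  obtain ⟨N₃, hN₃⟩ := Filter.eventually_atTop.1 (ev_log 1 (s := 1) (by norm_num) 2)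
  refine ⟨C' + 1, max N₁ N₃, fun N hN a ha q _ hq => ?_⟩
  have hNN₁ : N₁ ≤ N := le_trans (le_max_left _ _) hN
  obtain ⟨hL2, -⟩ := hN₃ N (le_trans (le_max_right _ _) hN)
  have hL1 : 1 ≤ Real.log N := by linarith
  have hq' : (q : ℝ) ≤ (N : ℝ) ^ (1 - σ - ρ) := by
    have e : (7 / 10 - (σ - 3 / 10 + ρ) : ℝ) = 1 - σ - ρ := by ring
    rw [e] at hq
    exact hq
  obtain ⟨B, hBc, hBB⟩ := hB' N hNN₁ q hq' (aC a) (fun m hm => fmaj_aC_bd ha hL1 hm)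
    (fun m hm => fmaj_aC_supp ha hm)
  refine ⟨insert 1 B, mem_insert_self _ _, ?_, fun η hη y hy S hS => ?_⟩
  · have h1 : ((insert 1 B).card : ℝ) ≤ (B.card : ℝ) + 1 := by exact_mod_cast card_insert_le _ _
    have h2 : 1 ≤ Real.log N ^ C' := one_le_pow₀ hL1
    calc ((insert 1 B).card : ℝ) ≤ (B.card : ℝ) + 1 := h1
      _ ≤ Real.log N ^ C' + Real.log N ^ C' := by linarith
      _ = Real.log N ^ C' * 2 := by ring
      _ ≤ Real.log N ^ C' * Real.log N := mul_le_mul_of_nonneg_left (by linarith) (by linarith)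
      _ = Real.log N ^ (C' + 1) := (pow_succ _ _).symm
  · rw [GM_cs]
    exact hBB lC (fun m hm => lC_bd hL1 hm) η hη y hy S
      (Disjoint.mono_right (subset_insert _ _) hS)

end Pool.Agent.Helper34.GF
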