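import Pool.Graph.R_seed8.R453.GS.Wt0
import Pool.Agent.Helper34.GF.Stm

set_option autoImplicit false

/-! FSA: the density is bounded. -/

namespace Pool.Agent.Helper34.GF

open Finset Filter Topology
open Pool.Agent.R453.GS (ev_log sum_pow log_num)
open Pool.Agent.Helper34.GE (Ea GM Sa HM fm Win)

lemma fsa_log40 {σ : ℝ} (hσ0 : 0 < σ) : Real.log (σ / (σ / 40)) ≤ 9 / 2 := by
  have e : σ / (σ / 40) = 40 := by
    field_simp
  rw [e]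
  exact log_num (by norm_num) (by norm_num) (by norm_num)

/-- the support of admissible coefficients -/
lemma Adm.supp {σ : ℝ} {N : ℕ} {a : ℕ → ℝ} (ha : Adm σ N a) {k : ℕ} (hk : a k ≠ 0) :
    k ∈ (Ioc ⌊(N : ℝ) ^ (σ / 40)⌋₊ ⌊(N : ℝ) ^ σ⌋₊).filter Nat.Prime := by
  obtain ⟨h1, h2, h3⟩ := ha.h2 k hk
  rw [mem_filter, mem_Ioc]
  refine ⟨⟨?_, Nat.le_floor h3⟩, h1⟩
  exact (Nat.floor_lt (Real.rpow_nonneg (Nat.cast_nonneg _) _)).2 h2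

/-- the absolute values -/
lemma fsa_abs0 {σ : ℝ} {N : ℕ} {a : ℕ → ℝ} (ha : Adm σ N a) (M : ℕ) :
    ∑ k ∈ Icc 1 M, |a k| / k ≤
      ∑ p ∈ (Ioc ⌊(N : ℝ) ^ (σ / 40)⌋₊ ⌊(N : ℝ) ^ σ⌋₊).filter Nat.Prime, (1 : ℝ) / p := by
  classical
  have h1 : ∑ k ∈ Icc 1 M, |a k| / k = ∑ k ∈ (Icc 1 M).filter (fun k => a k ≠ 0), |a k| / k := by
    rw [sum_filter]
    refine sum_congr rfl fun k _ => ?_
    by_cases h : a k = 0
    · simp [h]
    · simp [h]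
  rw [h1]
  calc ∑ k ∈ (Icc 1 M).filter (fun k => a k ≠ 0), |a k| / k
      ≤ ∑ k ∈ (Icc 1 M).filter (fun k => a k ≠ 0), (1 : ℝ) / k :=
        sum_le_sum fun k _ => div_le_div_of_nonneg_right (ha.h1 k) (Nat.cast_nonneg _)
    _ ≤ _ := by
        refine sum_le_sum_of_subset_of_nonneg (fun k hk => ?_) fun k _ _ => by positivity
        exact ha.supp (mem_filter.1 hk).2

/-- the sums of `|a k| / k` are at most `5` -/
theorem fsa_abs {σ : ℝ} (hσ0 : 0 < σ) : ∃ N₀ : ℕ, ∀ N : ℕ, N₀ ≤ N → ∀ a : ℕ → ℝ, Adm σ N a → ∀ M : ℕ,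
    ∑ k ∈ Icc 1 M, |a k| / k ≤ 5 := by
  obtain ⟨N₀, h⟩ := eventually_atTop.1 (sum_pow (α := σ / 40) (β := σ) (by linarith) (by linarith)
    (ε := 1 / 2) (by norm_num))
  refine ⟨N₀, fun N hN a ha M => (fsa_abs0 ha M).trans ?_⟩
  have := h N hN
  have h2 := fsa_log40 hσ0
  linarith

theorem fsa {σ : ℝ} (hσ0 : 0 < σ) (_hσ : σ ≤ 1 / 50) : SaStm σ := by
  obtain ⟨N₀, h⟩ := fsa_abs hσ0
  refine ⟨N₀, fun N hN a ha => ?_⟩
  refine le_trans ?_ (h N hN a ha N)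
  unfold Sa
  refine (abs_sum_le_sum_abs _ _).trans (le_of_eq (sum_congr rfl fun k _ => ?_))
  rw [abs_div, Nat.abs_cast]

end Pool.Agent.Helper34.GF
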