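import Pool.Agent.Helper34.GF.Stm
import Pool.Agent.Helper34.GE.Grid

set_option autoImplicit false

/-! Project GF, module FGRID (helper17): the asymptotic formula for one `n` and one `y`. -/

namespace Pool.Agent.Helper34.GF

open Finset
open Pool.Agent.R460.GS (la la_nn vm_le cv cv_left real_sum reflect_sum win_main')
open Pool.Agent.H373R2.T7 (lamz)
open Pool.Agent.Y883.T3 (lsh)
open Pool.Agent.Y883.GJ (LA)
open Pool.Agent.H560R3.GB (sing)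
open Pool.Agent.Helper34.GE (Ea GM Sa HM fm gRE fm_eqE err_windowE swap_modelE)

theorem fgrid {σ : ℝ} (hsa : SaStm σ) : GridStm σ := by
  intro V E1 hE1
  obtain ⟨N1, hN1⟩ := hsa
  obtain ⟨X0, hX0⟩ := win_main' (V + 2) E1 (by omega)
  refine ⟨N1 + X0 + ⌈Real.exp 20⌉₊ + 2, fun N hN a ha z r hz1 hz2 hsum n hn h2n hn0 y hy hcv => ?_⟩
  obtain ⟨hwin, hS0, hS2⟩ := hX0 N (by omega) n hn h2n hn0 z hz1 hz2
  refine ⟨?_, hS2⟩
  have hs := hN1 N (by omega) a ha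
  have hL20 : 20 ≤ Real.log N := by
    have h1 : Real.exp 20 ≤ N := (Nat.le_ceil _).trans (by exact_mod_cast (by omega : ⌈Real.exp 20⌉₊ ≤ N))
    have h2 := Real.log_le_log (Real.exp_pos 20) h1
    rwa [Real.log_exp] at h2
  have hN0 : (0 : ℝ) < N := by exact_mod_cast (by omega : 0 < N)
  have k1 := swap_modelE (y := y) hs hy hn hsum
  have k2 := (hwin y hy).1
  have k3 := err_windowE (a := a) (z := z) (r := r) hy hn
  rw [← k3] at hcv
  have hsplit : ∑ b ∈ Icc 1 y, la b * Ea a (n - b) =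
      ∑ b ∈ Icc 1 y, la b * (Sa N a * lsh z r (n - b)) + ∑ b ∈ Icc 1 y, la b * gRE N a z r (n - b) := by
    rw [← sum_add_distrib]
    refine sum_congr rfl fun b _ => ?_
    unfold gRE
    ring
  obtain ⟨L, hL⟩ : ∃ L, L = Real.log (N : ℝ) := ⟨_, rfl⟩
  obtain ⟨s, hsd⟩ : ∃ s, s = Sa N a := ⟨_, rfl⟩
  obtain ⟨S, hSd⟩ : ∃ S, S = sing n := ⟨_, rfl⟩
  rw [← hL] at hL20 k1 k2 hcv ⊢
  rw [← hsd] at hsplit hs k1 ⊢
  rw [← hSd] at k2 ⊢
  rw [hsplit]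
  obtain ⟨M1, hM1⟩ : ∃ M1, M1 = ∑ b ∈ Icc 1 y, la b * (s * lsh z r (n - b)) := ⟨_, rfl⟩
  obtain ⟨M2, hM2⟩ : ∃ M2, M2 = ∑ b ∈ Icc 1 y, la b * lamz z (n - b) := ⟨_, rfl⟩
  obtain ⟨M3, hM3⟩ : ∃ M3, M3 = ∑ b ∈ Icc 1 y, la b * gRE N a z r (n - b) := ⟨_, rfl⟩
  rw [← hM1, ← hM2] at k1
  rw [← hM2] at k2
  rw [← hM3] at hcv
  rw [← hM1, ← hM3]
  have hL0 : 0 < L := by linarith
  have hL1 : 1 ≤ L := by linarith
  obtain ⟨D, hD⟩ : ∃ D : ℝ, D = N / L ^ (V + 2) := ⟨_, rfl⟩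
  have hD0 : 0 < D := by rw [hD]; positivity
  have z6 : L * ((N : ℝ) / L ^ (V + 6)) ≤ D := by
    have e : L * ((N : ℝ) / L ^ (V + 6)) = D / L ^ 3 := by
      rw [hD, show V + 6 = (V + 2) + 3 + 1 by ring, pow_add, pow_add, pow_one]
      field_simp
    rw [e]
    exact div_le_self hD0.le (one_le_pow₀ hL1)
  have z4 : (N : ℝ) / L ^ (V + 2 + 2) ≤ D := by
    rw [hD]
    exact div_le_div_of_nonneg_left hN0.le (by positivity) (pow_le_pow_right₀ hL1 (by omega))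
  have z0 : (N : ℝ) / L ^ V = L ^ 2 * D := by
    rw [hD, pow_add]
    field_simp
  have k4 : |s * (M2 - S * y)| ≤ 10 * D := by
    rw [abs_mul]
    calc |s| * |M2 - S * y| ≤ 5 * (2 * (N / L ^ (V + 2 + 2))) :=
          mul_le_mul hs k2 (abs_nonneg _) (by norm_num)
      _ ≤ 10 * D := by linarith
  have k5 : |M1 - s * M2| ≤ 5 * D := by
    refine k1.trans ?_
    linarith
  have k6 : |M3| ≤ D := by rw [hD]; exact hcv
  have k7 : 16 * D ≤ L ^ 2 * D := by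
    apply mul_le_mul_of_nonneg_right _ hD0.le
    nlinarith
  rw [z0]
  have e : M1 + M3 - S * s * y = (M1 - s * M2) + M3 + s * (M2 - S * y) := by ring
  rw [e]
  have m1 := abs_le.1 k4
  have m2 := abs_le.1 k5
  have m3 := abs_le.1 k6
  rw [abs_le]
  constructor <;> linarith [m1.1, m1.2, m2.1, m2.2, m3.1, m3.2]

end Pool.Agent.Helper34.GF
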