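import Pool.Agent.Helper34.GF.Stm
import Pool.Agent.Helper34.GE.Mod

set_option autoImplicit false

/-! The sieve model times a constant, on the major and on the minor arcs. Module FMOD (helper2), after `GE.Mod`. -/

namespace Pool.Agent.Helper34.GF

open Finset
open Pool.Agent.Y883.GJ
open Pool.Agent.R460.GS (TiMaj2Stm MinAt abelIBV)
open Pool.Agent.R462.GS (csm evlog evL)
open Pool.Agent.H807R2.Dav (ee)
open Pool.Agent.H373R2.T7 (Vz)
open Pool.Agent.Y883.T3 (lsh)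
open Pool.Agent.Helper34.GX (WS key)
open Pool.Agent.Helper34.GE (ws_const)

lemma mne {σ : ℝ} {M : ℕ} (hM : 2 ≤ σ * M) : M ≠ 0 := by
  rintro rfl
  norm_num at hM

/-- the level is small -/
lemma dle {σ : ℝ} {M : ℕ} (hσ0 : 0 < σ) (hM : 2 ≤ σ * M) {D N : ℕ} (hN : 1 ≤ N)
    (h : ((D ^ M : ℕ) : ℝ) ≤ N) : (D : ℝ) ≤ (N : ℝ) ^ (σ / 2) := by
  have hM0 := mne hM
  have hMr : (0 : ℝ) < M := by exact_mod_cast Nat.pos_of_ne_zero hM0
  have hN1 : (1 : ℝ) ≤ N := by exact_mod_cast hN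
  push_cast at h
  have h1 := Real.rpow_le_rpow (by positivity) h (by positivity : (0 : ℝ) ≤ (M : ℝ)⁻¹)
  rw [Real.pow_rpow_inv_natCast (Nat.cast_nonneg D) hM0] at h1
  refine h1.trans (Real.rpow_le_rpow_of_exponent_le hN1 ?_)
  rw [inv_le_iff_one_le_mul₀ hMr]
  linarith

/-- MH: the sieve model on the major arcs -/
theorem fmH' {σ : ℝ} {M : ℕ} (hσ0 : 0 < σ) (hM : 2 ≤ σ * M) (h1 : TiMaj2Stm) (h2 : LshStm) (c : ℝ) (A C : ℕ) (ρ : ℝ) (hρ : 0 < ρ) : ∃ N₀ : ℕ, ∀ N : ℕ, N₀ ≤ N →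
    ∀ Wt : ℕ → ℝ, WS Wt c N →
    ∀ (q : ℕ) [NeZero q], (q : ℝ) ≤ (N : ℝ) ^ (7 / 10 - (σ - 3 / 10 + ρ)) → ∀ z r : ℕ,
    ((((z + 1) ^ r) ^ M : ℕ) : ℝ) ≤ N → (Vz z)⁻¹ ≤ Real.log N →
    ∀ η : ℝ, |η| ≤ Real.log N ^ C / N → ∀ y : ℕ, y ≤ N →
    ∀ S : Finset (DirichletCharacter ℂ q), 1 ∉ S →
      ∑ χ ∈ S, ‖cs q y (fun n => ((Wt n * lsh z r n : ℝ) : ℂ)) η χ‖ ^ 2 ≤ (N : ℝ) ^ 2 / Real.log N ^ A := by
  obtain ⟨n1, hn1⟩ := evlog (A + C + 1) (32 * c) (σ / 2) (by linarith)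
  obtain ⟨n2, hn2⟩ := evL 1
  refine ⟨max (max n1 n2) 1, fun N hN Wt hW q _ hq z r hD hV η hη y hy S hS => ?_⟩
  have e1 := hn1 N (le_trans (le_trans (le_max_left _ _) (le_max_left _ _)) hN)
  have e2 := hn2 N (le_trans (le_trans (le_max_right _ _) (le_max_left _ _)) hN)
  have hN1 : 1 ≤ N := le_trans (le_max_right _ _) hN
  have hNr : (1 : ℝ) ≤ N := by exact_mod_cast hN1
  have hN0 : (0 : ℝ) < N := by linarith
  have hcc : 0 ≤ c := hW.nn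
  obtain ⟨L, hLd⟩ : ∃ L, L = Real.log (N : ℝ) := ⟨_, rfl⟩
  rw [← hLd] at hV hη e1 e2 ⊢
  have hL0 : 0 < L := by linarith
  have hq1 : (q : ℝ) ≤ (N : ℝ) ^ (1 - σ) :=
    hq.trans (Real.rpow_le_rpow_of_exponent_le hNr (by linarith))
  have hηN : |η| * N ≤ L ^ C := by rwa [le_div_iff₀ hN0] at hη
  have hD1 := dle hσ0 hM hN1 hD
  have hLC : 1 ≤ L ^ C := one_le_pow₀ e2
  have hLA : 1 ≤ L ^ A := one_le_pow₀ e2
  obtain ⟨Y, hY⟩ : ∃ Y : ℝ, Y = 2 * q * (1 + 7 * (|η| * N)) := ⟨_, rfl⟩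
  have hY0 : 0 ≤ Y := by rw [hY]; positivity
  have hYle : Y ≤ 2 * (N : ℝ) ^ (1 - σ) * (8 * L ^ C) := by
    rw [hY]
    have h4 : 1 + 7 * (|η| * N) ≤ 8 * L ^ C := by linarith
    gcongr
  have hk := key h2 S η N z r c (N / L ^ A) hW (fun _ => Y) (by
      intro d hd y' hy'
      refine (h1 q S hS η d y').trans ?_
      rw [hY]
      have h6 : ((d : ℝ) * (y' : ℝ)) ≤ N := by
        have h7 : d * y' ≤ N := (Nat.mul_le_mul_left d hy').trans (Nat.mul_div_le N d)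
        exact_mod_cast h7
      have h7 : 7 * |η| * ((d : ℝ) * (y' : ℝ)) ≤ 7 * (|η| * N) := by
        have : |η| * ((d : ℝ) * (y' : ℝ)) ≤ |η| * N := mul_le_mul_of_nonneg_left h6 (abs_nonneg _)
        linarith
      refine mul_le_mul_of_nonneg_left ?_ (by positivity)
      linarith) (by
      rw [sum_const, Nat.card_Icc, Nat.add_sub_cancel, nsmul_eq_mul, le_div_iff₀ (by positivity)]
      have h8 : (0 : ℝ) ≤ (((z + 1) ^ r : ℕ) : ℝ) * Y := by positivity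
      calc (Vz z)⁻¹ * ((((z + 1) ^ r : ℕ) : ℝ) * Y) * (c + c) * L ^ A
          ≤ L * ((((z + 1) ^ r : ℕ) : ℝ) * Y) * (c + c) * L ^ A := by gcongr
        _ ≤ L * ((N : ℝ) ^ (σ / 2) * (2 * (N : ℝ) ^ (1 - σ) * (8 * L ^ C))) * (c + c) * L ^ A := by
            gcongr
        _ = (32 * c * L ^ (A + C + 1)) * ((N : ℝ) ^ (σ / 2) * (N : ℝ) ^ (1 - σ)) := by
            rw [pow_add, pow_add, pow_one]
            ring
        _ ≤ (N : ℝ) ^ (σ / 2) * ((N : ℝ) ^ (σ / 2) * (N : ℝ) ^ (1 - σ)) := by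
            gcongr
        _ = N := by
            rw [← Real.rpow_add hN0, ← Real.rpow_add hN0,
              show σ / 2 + (σ / 2 + (1 - σ)) = 1 by ring, Real.rpow_one]) y hy
  refine hk.trans ?_
  rw [div_pow]
  refine div_le_div_of_nonneg_left (by positivity) (by positivity) ?_
  rw [← pow_mul]
  exact pow_le_pow_right₀ e2 (by omega)

/-- NH: the sieve model on the minor arcs -/
theorem fnH' {σ : ℝ} {M : ℕ} (hσ0 : 0 < σ) (hM : 2 ≤ σ * M) (h1 : TiMinStm) (h2 : LshStm) (c : ℝ) (A : ℕ) (ρ : ℝ) (hρ : 0 < ρ) : ∃ C N₀ : ℕ, ∀ N : ℕ, N₀ ≤ N →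
    ∀ Wt : ℕ → ℝ, WS Wt c N → ∀ z r : ℕ,
    ((((z + 1) ^ r) ^ M : ℕ) : ℝ) ≤ N → (Vz z)⁻¹ ≤ Real.log N →
    MinAt N (σ - 3 / 10 + ρ) A C (fun n => ((Wt n * lsh z r n : ℝ) : ℂ)) := by
  obtain ⟨K0, hK⟩ := h1
  obtain ⟨C, hC⟩ : ∃ C, C = A + 4 := ⟨_, rfl⟩
  obtain ⟨K, hKd⟩ : ∃ K, K = |K0| + 1 := ⟨_, rfl⟩
  have hK1 : 1 ≤ K := by
    rw [hKd]
    have := abs_nonneg K0
    linarith
  have hK0K : K0 ≤ K := by
    rw [hKd]
    have := le_abs_self K0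
    linarith
  obtain ⟨n1, hn1⟩ := evlog C 1 (σ / 2) (by linarith)
  obtain ⟨n2, hn2⟩ := evL (24 * K * c + 1)
  obtain ⟨n3, hn3⟩ := evL 1
  refine ⟨C, max (max n1 n2) (max n3 1), fun N hN Wt hW z r hD hV q _ hq k h β hk1 hk2 hcop hβ y hy => ?_⟩
  have e1 := hn1 N (le_trans (le_trans (le_max_left _ _) (le_max_left _ _)) hN)
  have e2 := hn2 N (le_trans (le_trans (le_max_right _ _) (le_max_left _ _)) hN)
  have e3 := hn3 N (le_trans (le_trans (le_max_left _ _) (le_max_right _ _)) hN)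
  have hN1 : 1 ≤ N := le_trans (le_trans (le_max_right _ _) (le_max_right _ _)) hN
  have hNr : (1 : ℝ) ≤ N := by exact_mod_cast hN1
  have hN0 : (0 : ℝ) < N := by linarith
  have hcc : 0 ≤ c := hW.nn
  obtain ⟨L, hLd⟩ : ∃ L, L = Real.log (N : ℝ) := ⟨_, rfl⟩
  rw [← hLd] at hV hk1 hk2 e1 e2 e3 ⊢
  have hL0 : 0 < L := by linarith
  have hLC0 : 0 < L ^ C := by positivity
  have hLC : 1 ≤ L ^ C := one_le_pow₀ e3
  have hq0 : 1 ≤ q := Nat.pos_of_ne_zero (NeZero.ne q)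
  have hqr : (1 : ℝ) ≤ q := by exact_mod_cast hq0
  have hq1 : (q : ℝ) ≤ (N : ℝ) ^ (1 - σ) :=
    hq.trans (Real.rpow_le_rpow_of_exponent_le hNr (by linarith))
  have hkpos : (0 : ℝ) < k := by linarith
  have hk : 1 ≤ k := by exact_mod_cast hkpos
  have hkr : (1 : ℝ) ≤ k := by exact_mod_cast hk
  have hkN : k ≤ N := by
    have : (k : ℝ) ≤ N := by
      calc (k : ℝ) = 1 * k * 1 := by ring
        _ ≤ q * k * L ^ C := by gcongr
        _ ≤ N := hk2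
    exact_mod_cast this
  have hqN : q ≤ N := by
    have : (q : ℝ) ≤ N := by
      calc (q : ℝ) = q * 1 * 1 := by ring
        _ ≤ q * k * L ^ C := by gcongr
        _ ≤ N := hk2
    exact_mod_cast this
  obtain ⟨D, hDd⟩ : ∃ D, D = (z + 1) ^ r := ⟨_, rfl⟩
  have hD1 : 1 ≤ D := by
    rw [hDd]
    exact Nat.one_le_pow _ _ (by omega)
  rw [← hDd] at hD
  have hDN : D ≤ N := by
    have i1 : D ^ M ≤ N := by exact_mod_cast hD
    exact (Nat.le_self_pow (mne hM) D).trans i1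
  have hD2 := dle hσ0 hM hN1 hD
  obtain ⟨R, hR⟩ : ∃ R, R = (N : ℝ) / L ^ C := ⟨_, rfl⟩
  have hR0 : 0 < R := by rw [hR]; positivity
  have t1 : (q : ℝ) * D ≤ R := by
    rw [hR, le_div_iff₀ hLC0]
    calc (q : ℝ) * D * L ^ C ≤ (N : ℝ) ^ (1 - σ) * (N : ℝ) ^ (σ / 2) * (N : ℝ) ^ (σ / 2) := by
          gcongr
          linarith
      _ = N := by
          rw [← Real.rpow_add hN0, ← Real.rpow_add hN0,
            show 1 - σ + σ / 2 + σ / 2 = 1 by ring, Real.rpow_one]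
  have t2 : (N : ℝ) / k ≤ R := by
    rw [hR]
    exact div_le_div_of_nonneg_left hN0.le hLC0 hk1
  have t4 : (q : ℝ) * k ≤ R := by
    rw [hR, le_div_iff₀ hLC0]
    exact hk2
  obtain ⟨Y, hY1, hY2⟩ := hK q N D k h β hD1 hDN hqN hk hkN hcop hβ
  rw [← hLd] at hY2
  have hY3 : ∑ d ∈ Icc 1 D, Y d ≤ 12 * K * L ^ 2 * R := by
    refine hY2.trans ?_
    have h1 : (0 : ℝ) ≤ (N : ℝ) / k + q * D + q * k := by positivity
    calc K0 * ((N : ℝ) / k + q * D + q * k) * (1 + L) ^ 2 ≤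
          K * ((N : ℝ) / k + q * D + q * k) * (1 + L) ^ 2 := by gcongr
      _ ≤ K * (3 * R) * (2 * L) ^ 2 := by
          gcongr
          · linarith
          · linarith
      _ = 12 * K * L ^ 2 * R := by ring
  have hY0 : 0 ≤ ∑ d ∈ Icc 1 D, Y d :=
    sum_nonneg fun d hd => (norm_nonneg _).trans (hY1 d hd 0 (Nat.zero_le _))
  have hkk := key h2 (univ : Finset (DirichletCharacter ℂ q)) β N z r c (N / L ^ A) hW Y
    (by rw [← hDd]; exact hY1) (by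
      rw [← hDd, le_div_iff₀ (by positivity)]
      calc (Vz z)⁻¹ * (∑ d ∈ Icc 1 D, Y d) * (c + c) * L ^ A
          ≤ L * (∑ d ∈ Icc 1 D, Y d) * (c + c) * L ^ A := by gcongr
        _ ≤ L * (12 * K * L ^ 2 * R) * (c + c) * L ^ A := by gcongr
        _ = (24 * K * c) * (L ^ (A + 3) * R) := by
            rw [pow_add]
            ring
        _ ≤ L * (L ^ (A + 3) * R) := by
            gcongr
            linarith
        _ = L ^ C * R := by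
            rw [hC, pow_succ L (A + 3)]
            ring
        _ = N := by
            rw [hR]
            field_simp) y hy
  refine hkk.trans ?_
  rw [div_pow]
  refine div_le_div_of_nonneg_left (by positivity) (by positivity) ?_
  rw [← pow_mul]
  exact pow_le_pow_right₀ e3 (by omega)

/-- FMOD, major arcs -/
theorem fmH {σ : ℝ} {M : ℕ} (hσ0 : 0 < σ) (hM : 2 ≤ σ * M) (h1 : TiMaj2Stm) (h2 : LshStm) : MHStm σ M := by
  intro A C ρ hρ
  obtain ⟨N₀, h⟩ := fmH' hσ0 hM h1 h2 5 A C ρ hρ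
  exact ⟨N₀, fun N hN s hs q _ hq z r hD hV η hη y hy S hS =>
    h N hN (fun _ => s) (ws_const hs N) q hq z r hD hV η hη y hy S hS⟩

/-- FMOD, minor arcs -/
theorem fnH {σ : ℝ} {M : ℕ} (hσ0 : 0 < σ) (hM : 2 ≤ σ * M) (h1 : TiMinStm) (h2 : LshStm) : NHStm σ M := by
  intro A ρ hρ
  obtain ⟨C, N₀, h⟩ := fnH' hσ0 hM h1 h2 5 A ρ hρ
  exact ⟨C, N₀, fun N hN s hs z r hD hV => h N hN (fun _ => s) (ws_const hs N) z r hD hV⟩

end Pool.Agent.Helper34.GF
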