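import Pool.Agent.Helper34.GF.Split
import Pool.Agent.Helper34.GF.EMin
import Pool.Agent.Helper34.GF.ER2
import Pool.Agent.Helper34.GF.ER3
import Pool.Agent.Helper34.GF.Er4
import Pool.Agent.Helper34.GF.Err
import Pool.Agent.Helper34.GF.Esh
import Pool.Agent.Helper34.GF.FErrR
import Pool.Agent.Helper34.GF.FModel
import Pool.Agent.Helper34.GF.Fap
import Pool.Agent.Helper34.GF.Fmaj
import Pool.Agent.Helper34.GF.Fnc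
import Pool.Agent.Helper34.GF.Fsa
import Pool.Agent.Helper34.GF.Grid
import Pool.Agent.Helper34.GF.Main
import Pool.Agent.Helper34.GF.Mod
import Pool.Agent.Helper34.GX.RConv

set_option autoImplicit false

/-! Project GF: the assembly. -/

namespace Pool.Agent.Helper34.GF

open Finset
open Pool.Agent.R460.GH (bilMaj3 countK)
open Pool.Agent.R460.GS (tiMaj2)
open Pool.Agent.T6.H3.FF (core4)
open Pool.Agent.T6.H3.FR (core5)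

variable {σ : ℝ}

theorem maj_all (hσ0 : 0 < σ) (hσ : σ ≤ 1 / 50) : MajStm σ :=
  fmaj hσ0 hσ Pool.Agent.Y812.GJ.l2 (bilMaj3 Pool.Agent.Y812.GJ.l2 (countK Pool.Agent.Y812.GJ.l2))

theorem min_all (hσ0 : 0 < σ) (hσ : σ ≤ 1 / 50) : MinStm σ := fmin hσ0 hσ Pool.Agent.Y909.GJ.bilMin

theorem exM (hσ0 : 0 < σ) : ∃ M : ℕ, 2 ≤ σ * M := by
  obtain ⟨M, hM⟩ := exists_nat_ge (2 / σ)
  refine ⟨M, ?_⟩
  rw [div_le_iff₀ hσ0] at hM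
  linarith

theorem err_all (hσ0 : 0 < σ) (hσ : σ ≤ 1 / 50) : ErrStm σ := by
  obtain ⟨M, hM⟩ := exM hσ0
  exact ferr hσ0 M
    (core4 Pool.Agent.Y708.GJ.lift Pool.Agent.Y872.GJ.pars Pool.Agent.Y297.GJ.orth Pool.Agent.Y812.GJ.nonU)
    (fsa hσ0 hσ) (maj_all hσ0 hσ) (min_all hσ0 hσ)
    (fmH hσ0 hM (tiMaj2 Pool.Agent.Y812.GJ.l2) Pool.Agent.Y812.GJ.lsh_le)
    (fnH hσ0 hM Pool.Agent.Y412.GJ.tiMin Pool.Agent.Y812.GJ.lsh_le)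
    (fap hσ0 hσ) (fnc hσ0 hσ) 
    (fsh hσ0 hσ Pool.Agent.Y235.GJ.vau Pool.Agent.Y662.GJ.jac Pool.Agent.Y812.GJ.l2) fmodel

theorem errR_all (hσ0 : 0 < σ) (hσ : σ ≤ 1 / 50) : ErrRStm σ := by
  obtain ⟨M, hM⟩ := exM hσ0
  exact ferrr hσ0 M
    (core5 Pool.Agent.Y708.GJ.lift Pool.Agent.Y872.GJ.pars Pool.Agent.Y297.GJ.orth Pool.Agent.Y812.GJ.nonU)
    (fsa hσ0 hσ) (maj_all hσ0 hσ) (min_all hσ0 hσ)
    (fmH hσ0 hM (tiMaj2 Pool.Agent.Y812.GJ.l2) Pool.Agent.Y812.GJ.lsh_le)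
    (fnH hσ0 hM Pool.Agent.Y412.GJ.tiMin Pool.Agent.Y812.GJ.lsh_le)
    (fap hσ0 hσ) (fnc hσ0 hσ) (fr4 (fr2 hσ0 hσ Pool.Agent.Y812.GJ.l2) (fr3 hσ0 hσ)) fmodel

theorem main_all (hσ0 : 0 < σ) (hσ : σ ≤ 1 / 50) : MainStm σ :=
  fmain σ (fsa hσ0 hσ) (fgrid (fsa hσ0 hσ)) (err_all hσ0 hσ)

theorem mainR_all (hσ0 : 0 < σ) (hσ : σ ≤ 1 / 50) : MainRStm σ :=
  fmainr σ (fsa hσ0 hσ) (fgrid (fsa hσ0 hσ)) (errR_all hσ0 hσ)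

/-- The theorem for all ranges. -/
theorem thm_final {κ τ θ : ℝ} (hκ : 0 < κ) (hτ0 : 0 < τ)
    (hτ : τ ≤ 1 / 51) (hθ : θ < 1 - τ) : Thm κ τ θ :=
  thm_all (fun _ h0 h1 => main_all h0 h1) (fun _ h0 h1 => mainR_all h0 h1) hκ hτ0 hτ hθ

end Pool.Agent.Helper34.GF
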