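import Pool.Agent.Helper34.GF.Stm
import Pool.Graph.R_seed8.R460.GS.Conv

set_option autoImplicit false

/-! Project GF: from the integers `N` to real `x`. -/

namespace Pool.Agent.Helper34.GF

open Finset
open Pool.Agent.Y883.GJ
open Pool.Agent.R460.GS (mod_iff' gcd_toNat pow_range real_log)
open Pool.Agent.Y883.T4 (badc class_le)
open Pool.Agent.Helper34.GE (Win)

/-- the classes, for real `x` -/
theorem conv {σ : ℝ} (hσ0 : 0 < σ) (hM : MainStm σ) (hR : MainRStm σ) (ρ : ℝ) (hρ : 0 < ρ) (A T V : ℕ) :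
    ∃ c : ℕ, ∀ B : ℕ, ∃ x₀ : ℝ, ∀ x : ℝ, x₀ ≤ x → ∀ w : ℕ → ℝ, Adm σ ⌊x⌋₊ w →
      ∃ D : Finset ℕ, (D.card : ℝ) ≤ Real.log x ^ c ∧
      (∀ d ∈ D, Real.log x ^ B < (d : ℝ)) ∧
      ∀ q : ℕ, 1 ≤ q → (q : ℝ) ≤ x ^ (1 - σ - ρ) → ∀ a : ℤ,
        ((Int.gcd a q : ℝ) ≤ Real.log x ^ T ∨ ∀ d ∈ D, ¬ d ∣ q) →
        ({n : ℕ | 0 < n ∧ (n : ℝ) ≤ x ∧ 2 ∣ n ∧ (n : ℤ) ≡ a [ZMOD q] ∧ ¬ Win V ⌊x⌋₊ w n}).Finite ∧
        (({n : ℕ | 0 < n ∧ (n : ℝ) ≤ x ∧ 2 ∣ n ∧ (n : ℤ) ≡ a [ZMOD q] ∧ ¬ Win V ⌊x⌋₊ w n}.ncard : ℕ) : ℝ) ≤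
          x / (q * Real.log x ^ A) := by
  classical
  obtain ⟨A', hA'⟩ : ∃ A', A' = A + 2 := ⟨_, rfl⟩
  obtain ⟨N₁, h1⟩ := hM (ρ / 2) (by linarith) A' (T + 1) V
  obtain ⟨c, h2⟩ := hR (ρ / 2) (by linarith) A' V
  refine ⟨c, fun B => ?_⟩
  obtain ⟨N₂, h2⟩ := h2 (B + 1)
  obtain ⟨x₁, hx₁⟩ : ∃ x₁ : ℝ, ∀ x : ℝ, x₁ ≤ x →
      2 ^ (2 * A' + 6) + 2 * 2 ^ T + 2 * 2 ^ B ≤ Real.log x := by
    have h := Real.tendsto_log_atTop.eventually_ge_atTop (2 ^ (2 * A' + 6) + 2 * 2 ^ T + 2 * 2 ^ B : ℝ)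
    exact Filter.eventually_atTop.1 h
  obtain ⟨x₂, hx₂4, hx₂⟩ := pow_range (1 - σ) ρ hρ (by linarith)
  refine ⟨max (max ((N₁ : ℝ) + N₂ + 4) x₁) x₂, fun x hx w hw => ?_⟩
  have hxN : (N₁ : ℝ) + N₂ + 4 ≤ x := (le_max_left _ _).trans ((le_max_left _ _).trans hx)
  have hlx' := hx₁ x ((le_max_right _ _).trans ((le_max_left _ _).trans hx))
  have hrange := hx₂ x ((le_max_right _ _).trans hx)
  have h2T : (0 : ℝ) < 2 * 2 ^ T := by positivity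
  have h2B : (0 : ℝ) < 2 * 2 ^ B := by positivity
  have h2A : (0 : ℝ) < 2 ^ (2 * A' + 6) := by positivity
  have hlx : (2 : ℝ) ^ (2 * A' + 6) ≤ Real.log x := by linarith
  have hN₁r : (0 : ℝ) ≤ N₁ := Nat.cast_nonneg _
  have hN₂r : (0 : ℝ) ≤ N₂ := Nat.cast_nonneg _
  have hx4 : 4 ≤ x := by linarith
  have hx0 : 0 < x := by linarith
  obtain ⟨N, hN⟩ : ∃ N, N = ⌊x⌋₊ := ⟨_, rfl⟩
  rw [← hN] at hrange hw ⊢
  have hNx : (N : ℝ) ≤ x := by rw [hN]; exact Nat.floor_le hx0.le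
  have hxN1 : x < N + 1 := by rw [hN]; exact Nat.lt_floor_add_one x
  have hN0 : (0 : ℝ) < N := by linarith
  have hNN₁ : N₁ ≤ N := by
    rw [hN]
    exact Nat.le_floor (by linarith)
  have hNN₂ : N₂ ≤ N := by
    rw [hN]
    exact Nat.le_floor (by linarith)
  obtain ⟨l, hl⟩ : ∃ l, l = Real.log x := ⟨_, rfl⟩
  obtain ⟨L, hL⟩ : ∃ L, L = Real.log N := ⟨_, rfl⟩
  have h64 : (64 : ℝ) ≤ 2 ^ (2 * A' + 6) := by
    calc (64 : ℝ) = 2 ^ 6 := by norm_num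
      _ ≤ 2 ^ (2 * A' + 6) := pow_le_pow_right₀ (by norm_num) (by omega)
  rw [← hl] at hlx hlx'
  have hl64 : 64 ≤ l := by linarith
  have hLl : L ≤ l := by rw [hL, hl]; exact Real.log_le_log hN0 hNx
  have hlL : l / 2 ≤ L := by
    have h1 : x / 2 ≤ N := by linarith
    have h2 : Real.log (x / 2) ≤ L := by rw [hL]; exact Real.log_le_log (by linarith) h1
    rw [Real.log_div hx0.ne' (by norm_num), ← hl] at h2
    have h3 := Real.log_two_lt_d9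
    linarith
  have hL0 : 0 < L := by linarith
  have hl0 : 0 < l := by linarith
  have hpow : l ^ A ≤ L ^ A' := by
    have hL1 : 1 ≤ L := by linarith
    refine le_trans ?_ (pow_le_pow_right₀ hL1 (show A + 2 ≤ A' by omega))
    have h1 : (l / 2) ^ (A + 2) ≤ L ^ (A + 2) := pow_le_pow_left₀ (by linarith) hlL _
    refine le_trans ?_ h1
    rw [div_pow, le_div_iff₀ (by positivity), pow_add l A 2]
    have h2 : (2 : ℝ) ^ (A + 2) ≤ l ^ 2 := by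
      calc (2 : ℝ) ^ (A + 2) ≤ 2 ^ (2 * A' + 6) := pow_le_pow_right₀ (by norm_num) (by omega)
        _ ≤ l := hlx
        _ ≤ l ^ 2 := by nlinarith
    exact mul_le_mul_of_nonneg_left h2 (by positivity)
  have hTT : ∀ S : ℕ, (2 : ℝ) * 2 ^ S ≤ l → l ^ S ≤ L ^ (S + 1) := by
    intro S hS
    have h1 : l ^ S ≤ (2 * L) ^ S := pow_le_pow_left₀ hl0.le (by linarith) S
    rw [mul_pow] at h1
    refine h1.trans ?_
    rw [pow_succ' L S]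
    exact mul_le_mul_of_nonneg_right (by linarith) (by positivity)
  obtain ⟨D, hDc, hDl, h3⟩ := h2 N hNN₂ w hw
  rw [← hL] at hDc hDl
  refine ⟨D, ?_, ?_, ?_⟩
  · rw [← hl]
    exact hDc.trans (pow_le_pow_left₀ hL0.le hLl _)
  · intro d hd
    refine lt_of_le_of_lt ?_ (hDl d hd)
    rw [← hl]
    exact hTT B (by linarith)
  intro q hq hqx a ha
  have hq0 : (0 : ℝ) < q := by exact_mod_cast hq
  obtain ⟨a', ha'⟩ : ∃ a', a' = (a % (q : ℤ)).toNat := ⟨_, rfl⟩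
  have hcon : ((badc (Win V N w) N q a').card : ℝ) ≤ (N : ℝ) / (q * L ^ A') := by
    rcases ha with ha | ha
    · have h4 := h1 N hNN₁ w hw q hq (hqx.trans hrange) a' (by
        rw [ha', gcd_toNat q a hq, ← hL]
        rw [← hl] at ha
        exact ha.trans (hTT T (by linarith)))
      rwa [← hL] at h4
    · have h4 := h3 q hq (hqx.trans hrange) ha a'
      rwa [← hL] at h4
  obtain ⟨S, hS⟩ : ∃ S, S = badc (Win V N w) N q a' := ⟨_, rfl⟩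
  rw [← hS] at hcon
  have hsub : {n : ℕ | 0 < n ∧ (n : ℝ) ≤ x ∧ 2 ∣ n ∧ (n : ℤ) ≡ a [ZMOD q] ∧ ¬ Win V N w n} ⊆ (S : Set ℕ) := by
    rintro n ⟨a1, a2, a3, a4, a5⟩
    have hmod := mod_iff' n q a hq a4
    rw [← ha'] at hmod
    rw [mem_coe, hS]
    refine mem_filter.2 ⟨mem_Icc.2 ⟨a1, ?_⟩, a3, hmod, a5⟩
    rw [hN]; exact Nat.le_floor a2
  have hfin := (Finset.finite_toSet S).subset hsub
  refine ⟨hfin, ?_⟩
  have h5 : (({n : ℕ | 0 < n ∧ (n : ℝ) ≤ x ∧ 2 ∣ n ∧ (n : ℤ) ≡ a [ZMOD q] ∧ ¬ Win V N w n}.ncard : ℕ) : ℝ) ≤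
      (S.card : ℝ) := by
    have h2 := Set.ncard_le_ncard hsub (Finset.finite_toSet _)
    rw [Set.ncard_coe_finset] at h2
    exact_mod_cast h2
  rw [← hl]
  refine h5.trans (hcon.trans ?_)
  rw [div_le_div_iff₀ (by positivity) (by positivity)]
  calc (N : ℝ) * (q * l ^ A) ≤ x * (q * l ^ A) := mul_le_mul_of_nonneg_right hNx (by positivity)
    _ = (x * q) * l ^ A := by ring
    _ ≤ (x * q) * L ^ A' := mul_le_mul_of_nonneg_left hpow (by positivity)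
    _ = x * (q * L ^ A') := by ring

end Pool.Agent.Helper34.GF
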