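import Pool.Agent.Helper34.GE.Enc
import Pool.Agent.Helper34.GF.Fswp

set_option autoImplicit false

/-! Project GF, module FNC (helper14): integers which are not coprime to a given integer. -/

namespace Pool.Agent.Helper34.GF

open Finset Filter Topology
open Pool.Agent.H373R2.T7 (lamz Vz pz lamz_ap lam1 lam1_le)
open Pool.Agent.Y883.T3 (lsh)
open Pool.Agent.Y883.GJ
open Pool.Agent.R460.GS (BdAt MajAt MinAt ShAt ApAt NcAt one_le_div vm_le lsh_abs card_pf_le sq_sub_sum four_le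
  min_mono)
open Pool.Agent.Helper34.GE (Ea GM Sa HM fm Win ev_L ev_lp swap_dvd harm lt_div_succ ncL norm_GM)

lemma ev_enc {σ : ℝ} (hσ0 : 0 < σ) (hσ : σ ≤ 1 / 50) (U : ℕ) : ∀ᶠ N : ℕ in atTop, 1 ≤ N ∧ 1 ≤ Real.log N ∧
    24 * Real.log N ^ (U + 1) ≤ (N : ℝ) ^ (σ / 40) ∧
    (N : ℝ) ^ σ * (12 * Real.log N ^ (U + 3)) ≤ N := by
  filter_upwards [eventually_ge_atTop 1, ev_L 1, ev_lp (U + 1) 24 (σ / 40) (by linarith),
    ev_lp (U + 3) 12 (1 - σ) (by linarith)] with N h1 h2 h3 h4
  have hN0 : (0 : ℝ) < N := by exact_mod_cast h1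
  refine ⟨h1, h2, h3, ?_⟩
  calc (N : ℝ) ^ σ * (12 * Real.log N ^ (U + 3)) ≤ (N : ℝ) ^ σ * (N : ℝ) ^ (1 - σ) := by
        gcongr
    _ = N := by
        rw [← Real.rpow_add hN0, add_sub_cancel, Real.rpow_one]

theorem fnc {σ : ℝ} (hσ0 : 0 < σ) (hσ : σ ≤ 1 / 50) : NcStm σ := by
  classical
  intro U
  obtain ⟨N₀, hN₀⟩ := eventually_atTop.1 (ev_enc hσ0 hσ U)
  refine ⟨N₀, fun N hN a ha q hq hqN => ?_⟩
  obtain ⟨hN1, hL1, hX, h50⟩ := hN₀ N hN
  have hN0 : (0 : ℝ) < N := by exact_mod_cast hN1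
  have hX0 : 0 < (N : ℝ) ^ (σ / 40) := Real.rpow_pos_of_pos hN0 _
  obtain ⟨L, hLd⟩ : ∃ L, L = Real.log (N : ℝ) := ⟨_, rfl⟩
  obtain ⟨X, hXd⟩ : ∃ X, X = (N : ℝ) ^ (σ / 40) := ⟨_, rfl⟩
  have hncL : ∀ y ≤ N, ∑ m ∈ (Icc 1 y).filter (fun m => ¬ m.Coprime q), ArithmeticFunction.vonMangoldt m ≤
      6 * L ^ 3 := by
    intro y hy
    rw [hLd]
    exact ncL hL1 hy hq hqN
  have hpf := card_pf_le hq hqN
  rw [← hLd] at hL1 hX h50 hpf ⊢
  rw [← hXd] at hX hX0
  have hL0 : 0 < L := by linarith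
  have hk : ∀ k ∈ Icc 1 N, ∑ m ∈ (Icc 1 (N / k)).filter (fun m => ¬ (k * m).Coprime q),
      |a k| * ArithmeticFunction.vonMangoldt m ≤
      (if k ∈ q.primeFactors then 6 * (N / X) else 0) + (if a k ≠ 0 then 6 * L ^ 3 else 0) := by
    intro k hk
    have hk1 : 1 ≤ k := (mem_Icc.1 hk).1
    have hk0 : (0 : ℝ) < k := by exact_mod_cast hk1
    by_cases hak : a k = 0
    · have e0 : (if a k ≠ 0 then 6 * L ^ 3 else (0 : ℝ)) = 0 := if_neg (by simpa using hak)
      rw [e0, add_zero]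
      simp only [hak, abs_zero, zero_mul, sum_const_zero]
      split_ifs
      · positivity
      · exact le_rfl
    rw [if_pos hak, ← mul_sum]
    refine (mul_le_of_le_one_left (sum_nonneg fun _ _ => ArithmeticFunction.vonMangoldt_nonneg) (ha.h1 k)).trans ?_
    obtain ⟨hkp, hk2, hk3⟩ := ha.h2 k hak
    rw [← hXd] at hk2
    by_cases hkq : k ∣ q
    · rw [if_pos (Nat.mem_primeFactors.2 ⟨hkp, hkq, by omega⟩)]
      have h1 : ∑ m ∈ (Icc 1 (N / k)).filter (fun m => ¬ (k * m).Coprime q), ArithmeticFunction.vonMangoldt m ≤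
          lam1 (N / k) :=
        sum_le_sum_of_subset_of_nonneg (filter_subset _ _) fun _ _ _ => ArithmeticFunction.vonMangoldt_nonneg
      have h2 := lam1_le (N / k)
      have h3 : ((N / k : ℕ) : ℝ) ≤ N / X := by
        calc ((N / k : ℕ) : ℝ) ≤ (N : ℝ) / k := Nat.cast_div_le
          _ ≤ N / X := div_le_div_of_nonneg_left hN0.le hX0 hk2.le
      have h4 : (0 : ℝ) ≤ 6 * L ^ 3 := by positivity
      linarith
    · have h1 : (Icc 1 (N / k)).filter (fun m => ¬ (k * m).Coprime q) =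
          (Icc 1 (N / k)).filter (fun m => ¬ m.Coprime q) := by
        apply filter_congr
        intro m _
        rw [Nat.coprime_mul_iff_left, not_iff_not]
        constructor
        · exact fun h => h.2
        · exact fun h => ⟨(Nat.Prime.coprime_iff_not_dvd hkp).2 hkq, h⟩
      rw [h1]
      have h2 := hncL (N / k) (Nat.div_le_self _ _)
      refine h2.trans (le_add_of_nonneg_left ?_)
      split_ifs
      · positivity
      · exact le_rfl
  calc ∑ n ∈ (Icc 1 N).filter (fun n => ¬ n.Coprime q), ‖GM a n‖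
      ≤ ∑ n ∈ (Icc 1 N).filter (fun n => ¬ n.Coprime q), ∑ k ∈ n.divisors,
          |a k| * ArithmeticFunction.vonMangoldt (n / k) := by
        refine sum_le_sum fun n _ => ?_
        rw [norm_GM]
        exact abs_Ea_le' ha n
    _ = ∑ k ∈ Icc 1 N, ∑ m ∈ (Icc 1 (N / k)).filter (fun m => ¬ (k * m).Coprime q),
          |a k| * ArithmeticFunction.vonMangoldt m :=
        swap_dvd (fun k m => |a k| * ArithmeticFunction.vonMangoldt m) (fun n => ¬ n.Coprime q) le_rfl
    _ ≤ ∑ k ∈ Icc 1 N, ((if k ∈ q.primeFactors then 6 * (N / X) else 0) + (if a k ≠ 0 then 6 * L ^ 3 else 0)) :=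
        sum_le_sum hk
    _ ≤ (2 * L) * (6 * (N / X)) + (N : ℝ) ^ σ * (6 * L ^ 3) := by
        rw [sum_add_distrib, ← sum_filter, ← sum_filter, sum_const, sum_const, nsmul_eq_mul, nsmul_eq_mul]
        have h1 : (((Icc 1 N).filter (fun k => k ∈ q.primeFactors)).card : ℝ) ≤ 2 * L := by
          refine le_trans ?_ hpf
          exact_mod_cast card_le_card fun k hk => (mem_filter.1 hk).2
        have h2 := supp_card ha
        gcongr
    _ ≤ N / L ^ U := by
        rw [le_div_iff₀ (by positivity), add_mul]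
        have h1 : 2 * L * (6 * (N / X)) * L ^ U ≤ N / 2 := by
          calc 2 * L * (6 * (N / X)) * L ^ U = (24 * L ^ (U + 1)) / X * (N / 2) := by
                rw [pow_succ]
                field_simp
                ring
            _ ≤ 1 * (N / 2) := by
                apply mul_le_mul_of_nonneg_right _ (by positivity)
                rw [div_le_one hX0]
                exact hX
            _ = _ := one_mul _
        have h2 : (N : ℝ) ^ σ * (6 * L ^ 3) * L ^ U ≤ N / 2 := by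
          have h3 : (N : ℝ) ^ σ * (6 * L ^ 3) * L ^ U =
              ((N : ℝ) ^ σ * (12 * L ^ (U + 3))) / 2 := by
            rw [pow_add]
            ring
          rw [h3]
          linarith
        linarith

end Pool.Agent.Helper34.GF
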