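import Pool.Agent.Helper34.GE.Fin2

set_option autoImplicit false

/-! Project GF: from the weighted number of solutions to the number of solutions. -/

namespace Pool.Agent.Helper34.GF

open Finset
open Pool.Agent.H560R3.GB (sing)
open Pool.Agent.Helper34.GE (reps)

/-- The number of the solutions of `p + k p' = n` in primes `p`, `p'` and `k ∈ K`. -/
noncomputable def sols (K : Finset ℕ) (n : ℕ) : ℕ :=
  Set.ncard {s : ℕ × ℕ × ℕ | s.1.Prime ∧ s.2.1 ∈ K ∧ s.2.2.Prime ∧ s.1 + s.2.1 * s.2.2 = n}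

lemma reps_le_sols {K : Finset ℕ} {n z : ℕ} (hz : z < n) (hK : ∀ k ∈ K, 1 ≤ k) :
    reps K n 0 z ≤ Real.log n ^ 2 * sols K n := by
  classical
  obtain ⟨P, hP⟩ : ∃ P, P = (Ioc 0 z).filter Nat.Prime := ⟨_, rfl⟩
  obtain ⟨Q, hQ⟩ : ∃ Q : ℕ → Finset ℕ, Q = fun p => K.filter (fun k => k ∣ n - p ∧ ((n - p) / k).Prime) := ⟨_, rfl⟩
  have h1 : reps K n 0 z ≤ ∑ p ∈ P, ∑ _k ∈ Q p, Real.log n ^ 2 := by
    unfold reps
    rw [hP, hQ]
    apply sum_le_sum
    intro p hp
    apply sum_le_sum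
    intro k hk
    rw [mem_filter, mem_Ioc] at hp
    rw [mem_filter] at hk
    have hpn : p ≤ n := by omega
    have a1 : Real.log p ≤ Real.log n :=
      Real.log_le_log (by exact_mod_cast hp.1.1) (by exact_mod_cast hpn)
    have a2 : Real.log ((n - p) / k : ℕ) ≤ Real.log n := by
      have h0 := hk.2.2.pos
      apply Real.log_le_log (by exact_mod_cast h0)
      have : (n - p) / k ≤ n := (Nat.div_le_self _ _).trans (Nat.sub_le _ _)
      exact_mod_cast this
    rw [sq]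
    exact mul_le_mul a1 a2 (Real.log_natCast_nonneg _) (Real.log_natCast_nonneg _)
  have h2 : ∑ p ∈ P, ∑ _k ∈ Q p, Real.log n ^ 2 = Real.log n ^ 2 * ((P.sigma Q).card : ℝ) := by
    rw [card_sigma]
    push_cast
    rw [mul_sum]
    apply sum_congr rfl
    intro p _
    rw [sum_const, nsmul_eq_mul]
    ring
  have hfin : {s : ℕ × ℕ × ℕ | s.1.Prime ∧ s.2.1 ∈ K ∧ s.2.2.Prime ∧ s.1 + s.2.1 * s.2.2 = n}.Finite := by
    apply ((range (n + 1)) ×ˢ (K ×ˢ (range (n + 1)))).finite_toSet.subset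
    rintro ⟨p, k, p'⟩ ⟨h1, h2, h3, h4⟩
    simp only at h1 h2 h3 h4
    have hk := hK k h2
    have h5 : p' ≤ k * p' := Nat.le_mul_of_pos_left _ hk
    simp only [coe_product, Set.mem_prod, mem_coe, mem_range]
    exact ⟨by omega, h2, by omega⟩
  have h3 : (P.sigma Q).card ≤ sols K n := by
    unfold sols
    rw [Set.ncard_eq_toFinset_card _ hfin]
    apply card_le_card_of_injOn (fun s => (s.1, s.2, (n - s.1) / s.2))
    · rintro ⟨p, k⟩ hs
      have hs' : p ∈ P ∧ k ∈ Q p := by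
        rw [coe_sigma, Set.mem_sigma_iff] at hs
        exact hs
      rw [hP, hQ] at hs'
      obtain ⟨hp, hk⟩ := hs'
      rw [mem_filter, mem_Ioc] at hp
      rw [mem_filter] at hk
      simp only [Set.Finite.coe_toFinset, Set.mem_ofPred_eq]
      refine ⟨hp.2, hk.1, hk.2.2, ?_⟩
      rw [Nat.mul_div_cancel' hk.2.1]
      omega
    · rintro ⟨p, k⟩ _ ⟨p', k'⟩ _ h
      simp only [Prod.mk.injEq] at h
      obtain ⟨rfl, rfl, -⟩ := h
      rfl
  calc reps K n 0 z ≤ ∑ p ∈ P, ∑ _k ∈ Q p, Real.log n ^ 2 := h1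
    _ = Real.log n ^ 2 * ((P.sigma Q).card : ℝ) := h2
    _ ≤ Real.log n ^ 2 * sols K n := by gcongr

/-- the lower bound for the number of the solutions -/
lemma sols_ge {K : Finset ℕ} {n V : ℕ} {x S : ℝ} (hx : Real.exp 8 ≤ x) (hn1 : x / 2 < n) (_hn2 : (n : ℝ) ≤ x)
    (hK : ∀ k ∈ K, 1 ≤ k) (hs : 1 ≤ sing n) (hS : 1 ≤ Real.log x ^ V * S)
    (hF : |reps K n 0 (n - 1) - sing n * S * (((n - 1 : ℕ) : ℝ) - (0 : ℕ))| ≤ x / Real.log x ^ (V + 2)) :
    1 / 2 * (sing n * S * (n / Real.log n ^ 2)) ≤ sols K n := by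
  have hx0 : 0 < x := lt_of_lt_of_le (Real.exp_pos _) hx
  have hl8 : 8 ≤ Real.log x := by rw [Real.le_log_iff_exp_le hx0]; exact hx
  have hx8 : 9 ≤ x := by
    have := Real.add_one_le_exp (8 : ℝ)
    linarith
  have hn4 : (4 : ℝ) < n := by linarith
  have hn4' : 4 < n := by exact_mod_cast hn4
  have h1 := reps_le_sols (n := n) (z := n - 1) (by omega) hK
  have hcast : ((n - 1 : ℕ) : ℝ) = n - 1 := by
    rw [Nat.cast_sub (by omega)]
    norm_num
  rw [hcast, Nat.cast_zero, sub_zero] at hF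
  obtain ⟨l, hl⟩ : ∃ l, l = Real.log x := ⟨_, rfl⟩
  rw [← hl] at hl8 hS hF
  have hl0 : 0 < l := by linarith
  have hS0 : 0 < S := by
    by_contra h
    push Not at h
    have : l ^ V * S ≤ 0 := mul_nonpos_of_nonneg_of_nonpos (by positivity) h
    linarith
  have hF' := (abs_le.1 hF).1
  -- the error is at most a quarter of the main term
  have e1 : x / l ^ (V + 2) ≤ 1 / 4 * (sing n * S * n) := by
    have e2 : x / l ^ (V + 2) = x / l ^ V / l ^ 2 := by rw [pow_add, div_div]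
    have e3 : x / l ^ V ≤ S * x := by
      rw [div_le_iff₀ (by positivity)]
      nlinarith
    rw [e2, div_le_iff₀ (by positivity)]
    have e4 : (64 : ℝ) ≤ l ^ 2 := by nlinarith
    have e5 : S * x ≤ 2 * (S * n) := by nlinarith
    have e6 : S * n ≤ sing n * S * n := by
      have : 0 ≤ S * n := by positivity
      nlinarith
    have e7 : 0 ≤ sing n * S * n := by positivity
    calc x / l ^ V ≤ S * x := e3
      _ ≤ 2 * (sing n * S * n) := by linarith
      _ ≤ 1 / 4 * (sing n * S * n) * 64 := by linarith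
      _ ≤ 1 / 4 * (sing n * S * n) * l ^ 2 := by gcongr
  have e8 : 3 / 4 * (sing n * S * n) ≤ sing n * S * (n - 1) := by
    have : 0 ≤ sing n * S := by positivity
    nlinarith
  have hlog0 : 0 < Real.log n := Real.log_pos (by linarith)
  have e9 : 1 / 2 * (sing n * S * n) ≤ Real.log n ^ 2 * sols K n := by linarith
  have e10 : 1 / 2 * (sing n * S * (n / Real.log n ^ 2)) = 1 / 2 * (sing n * S * n) / Real.log n ^ 2 := by
    ring
  rw [e10, div_le_iff₀ (by positivity)]
  linarith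

end Pool.Agent.Helper34.GF
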