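import Mathlib
import Pool.Graph.R_seed8.Helper923.HMertens

set_option autoImplicit false

/-! Project GF: the sum of `1 / k` over a set which contains all the primes between two powers of `x`. -/

namespace Pool.Agent.Helper34.GF

open Finset Filter Topology

lemma mertens_lower {κ τ ε : ℝ} (hκ : 0 < κ) (hκτ : κ < τ) (hε : 0 < ε) : ∃ x₀ : ℝ, ∀ x : ℝ, x₀ ≤ x →
    ∀ K : Finset ℕ, (∀ k : ℕ, k.Prime → x ^ κ ≤ k → (k : ℝ) ≤ x ^ τ → k ∈ K) →
      Real.log (τ / κ) - ε ≤ ∑ k ∈ K, (1 : ℝ) / k := by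
  obtain ⟨C, hC0, hC⟩ := Pool.Agent.Helper923.HMertens.mertens_ratio
  have hτ : 0 < τ := hκ.trans hκτ
  -- the limit of the quotient
  have hlim : Tendsto (fun L : ℝ => Real.log ((τ * L - 1) / (κ * L + 1))) atTop (𝓝 (Real.log (τ / κ))) := by
    apply Tendsto.log _ (by positivity)
    have h1 : Tendsto (fun L : ℝ => (τ - 1 / L) / (κ + 1 / L)) atTop (𝓝 ((τ - 0) / (κ + 0))) := by
      have h2 : Tendsto (fun L : ℝ => 1 / L) atTop (𝓝 0) := by
        simpa using tendsto_inv_atTop_zero (𝕜 := ℝ)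
      exact (tendsto_const_nhds.sub h2).div (tendsto_const_nhds.add h2) (by linarith)
    rw [sub_zero, add_zero] at h1
    refine h1.congr' ?_
    filter_upwards [eventually_gt_atTop 0] with L hL
    have e1 : τ - 1 / L = (τ * L - 1) / L := by field_simp
    have e2 : κ + 1 / L = (κ * L + 1) / L := by field_simp
    rw [e1, e2, div_div_div_cancel_right₀ hL.ne']
  have hev : ∀ᶠ x : ℝ in atTop, Real.log (τ / κ) - ε / 2 < Real.log ((τ * Real.log x - 1) / (κ * Real.log x + 1)) :=
    (hlim.comp Real.tendsto_log_atTop).eventually (lt_mem_nhds (by linarith))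
  obtain ⟨x₁, h1⟩ := eventually_atTop.1 hev
  obtain ⟨x₂, h2⟩ := eventually_atTop.1 (Real.tendsto_log_atTop.eventually_ge_atTop
    ((2 * C / ε + 2) / κ + 2 / (τ - κ) + 2 / τ))
  refine ⟨max (max x₁ x₂) 1, fun x hx K hK => ?_⟩
  have h1 := h1 x ((le_max_left _ _).trans ((le_max_left _ _).trans hx))
  have h2 := h2 x ((le_max_right _ _).trans ((le_max_left _ _).trans hx))
  have hx1 : 1 ≤ x := (le_max_right _ _).trans hx
  have hx0 : 0 < x := by linarith
  obtain ⟨L, hL⟩ : ∃ L, L = Real.log x := ⟨_, rfl⟩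
  rw [← hL] at h1 h2
  have q1 : 0 ≤ (2 * C / ε + 2) / κ := by positivity
  have q2 : 0 < 2 / (τ - κ) := div_pos (by norm_num) (by linarith)
  have q3 : 0 < 2 / τ := by positivity
  have g1 : 2 * C / ε + 2 ≤ κ * L := by
    have : (2 * C / ε + 2) / κ ≤ L := by linarith
    rw [div_le_iff₀ hκ] at this
    linarith
  have g2 : 2 ≤ (τ - κ) * L := by
    have : 2 / (τ - κ) ≤ L := by linarith
    rw [div_le_iff₀ (by linarith)] at this
    linarith
  have g3 : 0 ≤ 2 * C / ε := by positivity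
  have hκL : 2 ≤ κ * L := by linarith
  have hx4 : 4 ≤ x ^ κ := by
    have h4 : Real.exp (κ * L) = x ^ κ := by
      rw [Real.rpow_def_of_pos hx0, hL, mul_comm]
    rw [← h4]
    have h5 := Real.exp_one_gt_d9
    calc (4 : ℝ) ≤ Real.exp 1 * Real.exp 1 := by nlinarith
      _ = Real.exp 2 := by rw [← Real.exp_add]; norm_num
      _ ≤ Real.exp (κ * L) := Real.exp_le_exp.2 hκL
  -- the end points
  obtain ⟨u, hu⟩ : ∃ u, u = ⌈x ^ κ⌉₊ := ⟨_, rfl⟩
  obtain ⟨v, hv⟩ : ∃ v, v = ⌊x ^ τ⌋₊ := ⟨_, rfl⟩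
  have hu1 : x ^ κ ≤ u := by rw [hu]; exact Nat.le_ceil _
  have hu2 : (u : ℝ) < x ^ κ + 1 := by rw [hu]; exact Nat.ceil_lt_add_one (by positivity)
  have hv1 : (v : ℝ) ≤ x ^ τ := by rw [hv]; exact Nat.floor_le (by positivity)
  have hv2 : x ^ τ < v + 1 := by rw [hv]; exact Nat.lt_floor_add_one _
  have hxτ : 4 * x ^ κ ≤ x ^ τ := by
    have e1 : x ^ τ = x ^ (τ - κ) * x ^ κ := by
      rw [← Real.rpow_add hx0]
      congr 1
      ring
    rw [e1]
    have h4 : Real.exp ((τ - κ) * L) = x ^ (τ - κ) := by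
      rw [Real.rpow_def_of_pos hx0, hL, mul_comm]
    have h5 : 4 ≤ x ^ (τ - κ) := by
      rw [← h4]
      have h5 := Real.exp_one_gt_d9
      calc (4 : ℝ) ≤ Real.exp 1 * Real.exp 1 := by nlinarith
        _ = Real.exp 2 := by rw [← Real.exp_add]; norm_num
        _ ≤ Real.exp ((τ - κ) * L) := Real.exp_le_exp.2 g2
    gcongr
  have hu4 : (4 : ℝ) ≤ u := by linarith
  have hu4' : 4 ≤ u := by exact_mod_cast hu4
  have huv : u ≤ v := by
    have : (u : ℝ) ≤ v := by linarith
    exact_mod_cast this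
  have hm := (abs_le.1 (hC u v (by omega) huv)).1
  -- the logarithms
  have l2 := Real.log_two_lt_d9
  have lu1 : κ * L ≤ Real.log u := by
    have := Real.log_le_log (by positivity) hu1
    rwa [Real.log_rpow hx0, ← hL] at this
  have lu2 : Real.log u ≤ κ * L + 1 := by
    have h3 : (u : ℝ) ≤ 2 * x ^ κ := by linarith
    have := Real.log_le_log (by positivity) h3
    rw [Real.log_mul (by norm_num) (by positivity), Real.log_rpow hx0, ← hL] at this
    linarith
  have lv : τ * L - 1 ≤ Real.log v := by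
    have hv0 : (0 : ℝ) < v := by
      have : (u : ℝ) ≤ v := by exact_mod_cast huv
      linarith
    have h3 : x ^ τ ≤ 2 * v := by
      have : (1 : ℝ) ≤ v := by exact_mod_cast (by omega : 1 ≤ v)
      linarith
    have := Real.log_le_log (by positivity) h3
    rw [Real.log_mul (by norm_num) hv0.ne', Real.log_rpow hx0, ← hL] at this
    linarith
  have hτL : 0 < τ * L - 1 := by nlinarith
  have hlu0 : 0 < Real.log u := by linarith
  have e1 : Real.log ((τ * L - 1) / (κ * L + 1)) ≤ Real.log (Real.log v / Real.log u) := by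
    apply Real.log_le_log (div_pos hτL (by linarith))
    rw [div_le_div_iff₀ (by linarith) hlu0]
    exact mul_le_mul lv lu2 hlu0.le (by linarith)
  have e2 : C / Real.log u ≤ ε / 2 := by
    rw [div_le_iff₀ hlu0]
    have h3 : 2 * C / ε ≤ Real.log u := by linarith
    rw [div_le_iff₀ hε] at h3
    linarith
  have e3 : ∑ p ∈ (Ioc u v).filter Nat.Prime, (1 : ℝ) / p ≤ ∑ k ∈ K, (1 : ℝ) / k := by
    apply sum_le_sum_of_subset_of_nonneg
    · intro p hp
      rw [mem_filter, mem_Ioc] at hp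
      apply hK p hp.2
      · have : (u : ℝ) ≤ p := by exact_mod_cast hp.1.1.le
        linarith
      · have : (p : ℝ) ≤ v := by exact_mod_cast hp.1.2
        linarith
    · intro k _ _
      positivity
  linarith

end Pool.Agent.Helper34.GF
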