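import Pool.Agent.Helper34.GF.Fin2

set_option autoImplicit false

/-! Project GF: arbitrary ranges of the set `K`. -/

namespace Pool.Agent.Helper34.GF

open Finset
open Pool.Agent.H560R3.GB (sing)
open Pool.Agent.Helper34.GE (reps Formula)

lemma thm_mono {κ κ' τ τ' θ θ' : ℝ} (hκ : κ ≤ κ') (hτ : τ' ≤ τ) (hθ : θ' ≤ θ) (h : Thm κ τ θ) : Thm κ' τ' θ' := by
  intro A T V
  obtain ⟨c, h⟩ := h A T V
  refine ⟨c, fun B => ?_⟩
  obtain ⟨x₀, h⟩ := h B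
  refine ⟨max x₀ 1, fun x hx K hK => ?_⟩
  have hx1 : 1 ≤ x := (le_max_right _ _).trans hx
  obtain ⟨D, h1, h2, h3⟩ := h x ((le_max_left _ _).trans hx) K (fun k hk =>
    ⟨(hK k hk).1, (Real.rpow_le_rpow_of_exponent_le hx1 hκ).trans (hK k hk).2.1,
      (hK k hk).2.2.trans (Real.rpow_le_rpow_of_exponent_le hx1 hτ)⟩)
  exact ⟨D, h1, h2, fun q hq hqx => h3 q hq (hqx.trans (Real.rpow_le_rpow_of_exponent_le hx1 hθ))⟩

lemma reps_union {K₁ K₂ : Finset ℕ} (h : Disjoint K₁ K₂) (n y z : ℕ) :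
    reps (K₁ ∪ K₂) n y z = reps K₁ n y z + reps K₂ n y z := by
  unfold reps
  rw [← sum_add_distrib]
  refine sum_congr rfl fun p _ => ?_
  rw [filter_union, sum_union]
  exact disjoint_filter_filter h

lemma thm_union {κ μ τ θ : ℝ} (h₁ : Thm κ μ θ) (h₂ : Thm μ τ θ) : Thm κ τ θ := by
  classical
  intro A T V
  obtain ⟨c₁, h₁⟩ := h₁ (A + 1) T (V + 1)
  obtain ⟨c₂, h₂⟩ := h₂ (A + 1) T (V + 1)
  refine ⟨c₁ + c₂ + 1, fun B => ?_⟩
  obtain ⟨x₁, h₁⟩ := h₁ B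
  obtain ⟨x₂, h₂⟩ := h₂ B
  refine ⟨max (max x₁ x₂) (Real.exp 2), fun x hx K hK => ?_⟩
  have hx1 : x₁ ≤ x := (le_max_left _ _).trans ((le_max_left _ _).trans hx)
  have hx2 : x₂ ≤ x := (le_max_right _ _).trans ((le_max_left _ _).trans hx)
  have hx3 : Real.exp 2 ≤ x := (le_max_right _ _).trans hx
  have hx0 : 0 < x := lt_of_lt_of_le (Real.exp_pos _) hx3
  have hl2 : 2 ≤ Real.log x := by rw [Real.le_log_iff_exp_le hx0]; exact hx3
  obtain ⟨l, hl⟩ : ∃ l, l = Real.log x := ⟨_, rfl⟩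
  rw [← hl] at hl2
  have hl0 : 0 < l := by linarith
  obtain ⟨K₁, hK₁⟩ : ∃ K₁ : Finset ℕ, K₁ = K.filter (fun k : ℕ => (k : ℝ) ≤ x ^ μ) := ⟨_, rfl⟩
  obtain ⟨K₂, hK₂⟩ : ∃ K₂ : Finset ℕ, K₂ = K.filter (fun k : ℕ => ¬ (k : ℝ) ≤ x ^ μ) := ⟨_, rfl⟩
  have hKK : K = K₁ ∪ K₂ := by rw [hK₁, hK₂, filter_union_filter_not_eq]
  have hdis : Disjoint K₁ K₂ := by rw [hK₁, hK₂]; exact disjoint_filter_filter_not _ _ _
  obtain ⟨D₁, a1, a2, a3⟩ := h₁ x hx1 K₁ (fun k hk => by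
    rw [hK₁, mem_filter] at hk
    exact ⟨(hK k hk.1).1, (hK k hk.1).2.1, hk.2⟩)
  obtain ⟨D₂, b1, b2, b3⟩ := h₂ x hx2 K₂ (fun k hk => by
    rw [hK₂, mem_filter] at hk
    exact ⟨(hK k hk.1).1, (not_le.1 hk.2).le, (hK k hk.1).2.2⟩)
  rw [← hl] at a1 b1
  refine ⟨D₁ ∪ D₂, ?_, ?_, ?_⟩
  · rw [← hl]
    have h5 : ((D₁ ∪ D₂).card : ℝ) ≤ D₁.card + D₂.card := by exact_mod_cast card_union_le _ _
    have h6 : l ^ c₁ ≤ l ^ (c₁ + c₂) := pow_le_pow_right₀ (by linarith) (by omega)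
    have h7 : l ^ c₂ ≤ l ^ (c₁ + c₂) := pow_le_pow_right₀ (by linarith) (by omega)
    rw [pow_succ]
    have h8 : 0 ≤ l ^ (c₁ + c₂) := by positivity
    nlinarith
  · intro d hd
    rw [mem_union] at hd
    rcases hd with hd | hd
    · exact a2 d hd
    · exact b2 d hd
  intro q hq hqx a ha
  have hq0 : (0 : ℝ) < q := by exact_mod_cast hq
  obtain ⟨f1, f2⟩ := a3 q hq hqx a (ha.imp_right fun h d hd => h d (mem_union_left _ hd))
  obtain ⟨g1, g2⟩ := b3 q hq hqx a (ha.imp_right fun h d hd => h d (mem_union_right _ hd))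
  obtain ⟨E₁, hE₁⟩ : ∃ E₁, E₁ = {n : ℕ | 0 < n ∧ (n : ℝ) ≤ x ∧ 2 ∣ n ∧ (n : ℤ) ≡ a [ZMOD q] ∧
    ¬ Formula (V + 1) x K₁ n} := ⟨_, rfl⟩
  obtain ⟨E₂, hE₂⟩ : ∃ E₂, E₂ = {n : ℕ | 0 < n ∧ (n : ℝ) ≤ x ∧ 2 ∣ n ∧ (n : ℤ) ≡ a [ZMOD q] ∧
    ¬ Formula (V + 1) x K₂ n} := ⟨_, rfl⟩
  rw [← hE₁] at f1 f2
  rw [← hE₂] at g1 g2
  rw [← hl] at f2 g2
  have hsub : {n : ℕ | 0 < n ∧ (n : ℝ) ≤ x ∧ 2 ∣ n ∧ (n : ℤ) ≡ a [ZMOD q] ∧ ¬ Formula V x K n} ⊆ E₁ ∪ E₂ := by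
    rintro n ⟨e1, e2, e3, e4, e5⟩
    by_contra hn
    rw [Set.mem_union, not_or] at hn
    have hn1 : Formula (V + 1) x K₁ n := by
      by_contra h
      exact hn.1 (by rw [hE₁]; exact ⟨e1, e2, e3, e4, h⟩)
    have hn2 : Formula (V + 1) x K₂ n := by
      by_contra h
      exact hn.2 (by rw [hE₂]; exact ⟨e1, e2, e3, e4, h⟩)
    apply e5
    intro y z hyz hz
    have h5 := hn1 y z hyz hz
    have h6 := hn2 y z hyz hz
    rw [hKK, reps_union hdis, sum_union hdis, ← hl]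
    rw [← hl] at h5 h6
    have h7 : x / l ^ (V + 1) ≤ x / l ^ V / 2 := by
      rw [pow_succ, ← div_div]
      exact div_le_div_of_nonneg_left (by positivity) (by norm_num) hl2
    have h8 : reps K₁ n y z + reps K₂ n y z -
        sing n * (∑ k ∈ K₁, (1 : ℝ) / k + ∑ k ∈ K₂, (1 : ℝ) / k) * ((z : ℝ) - y) =
        (reps K₁ n y z - sing n * (∑ k ∈ K₁, (1 : ℝ) / k) * ((z : ℝ) - y)) +
        (reps K₂ n y z - sing n * (∑ k ∈ K₂, (1 : ℝ) / k) * ((z : ℝ) - y)) := by ring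
    rw [h8]
    refine (abs_add_le _ _).trans ?_
    linarith
  refine ⟨(f1.union g1).subset hsub, ?_⟩
  have h5 : (({n : ℕ | 0 < n ∧ (n : ℝ) ≤ x ∧ 2 ∣ n ∧ (n : ℤ) ≡ a [ZMOD q] ∧ ¬ Formula V x K n}.ncard : ℕ) : ℝ) ≤
      (E₁.ncard : ℝ) + E₂.ncard := by
    have h6 := Set.ncard_le_ncard hsub (f1.union g1)
    have h7 := Set.ncard_union_le E₁ E₂
    exact_mod_cast h6.trans h7
  rw [← hl]
  have h9 : x / (q * l ^ (A + 1)) ≤ x / (q * l ^ A) / 2 := by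
    rw [pow_succ, ← mul_assoc, ← div_div]
    exact div_le_div_of_nonneg_left (by positivity) (by norm_num) hl2
  linarith

/-- The theorem for all ranges, from the theorem for one range. -/
theorem thm_all (hM : ∀ σ : ℝ, 0 < σ → σ ≤ 1 / 50 → MainStm σ) (hR : ∀ σ : ℝ, 0 < σ → σ ≤ 1 / 50 → MainRStm σ)
    {κ τ θ : ℝ} (hκ : 0 < κ) (hτ0 : 0 < τ) (hτ : τ ≤ 1 / 51) (hθ : θ < 1 - τ) : Thm κ τ θ := by
  -- one range, the quotient of the exponents is 20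
  have base : ∀ τ' : ℝ, 0 < τ' → τ' ≤ τ → Thm (τ' / 20) τ' θ := by
    intro τ' h0 h1
    obtain ⟨δ, hδ⟩ : ∃ δ : ℝ, δ = min (min ((1 - τ - θ) / 2) (τ' / 41)) (1 / 50 - 1 / 51) := ⟨_, rfl⟩
    have hδ0 : 0 < δ := by
      rw [hδ]
      refine lt_min (lt_min (by linarith) (by positivity)) (by norm_num)
    have d1 : δ ≤ (1 - τ - θ) / 2 := by
      rw [hδ]; exact (min_le_left _ _).trans (min_le_left _ _)
    have d2 : δ ≤ τ' / 41 := by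
      rw [hδ]; exact (min_le_left _ _).trans (min_le_right _ _)
    have d3 : δ ≤ 1 / 50 - 1 / 51 := by
      rw [hδ]; exact min_le_right _ _
    have hs0 : 0 < τ' + δ := by linarith
    have hs : τ' + δ ≤ 1 / 50 := by linarith
    have h2 := thm_one (σ := τ' + δ) (δ := δ) (ρ := (1 - τ - θ) / 2) hs0 hs hδ0 (by linarith)
      (hM _ hs0 hs) (hR _ hs0 hs)
    refine thm_mono ?_ ?_ ?_ h2
    · linarith
    · linarith
    · linarith
  have step : ∀ m : ℕ, Thm (τ / 20 ^ (m + 1)) τ θ := by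
    intro m
    induction m with
    | zero =>
        have := base τ hτ0 le_rfl
        simpa using this
    | succ m ih =>
        have h20 : (1 : ℝ) ≤ 20 ^ (m + 1) := one_le_pow₀ (by norm_num)
        have h3 : τ / 20 ^ (m + 1) ≤ τ := div_le_self hτ0.le h20
        have h4 := base (τ / 20 ^ (m + 1)) (by positivity) h3
        have h5 : τ / 20 ^ (m + 1) / 20 = τ / 20 ^ (m + 1 + 1) := by
          rw [pow_succ (20 : ℝ) (m + 1), div_div]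
        rw [h5] at h4
        exact thm_union h4 ih
  obtain ⟨m, hm⟩ := exists_pow_lt_of_lt_one (show 0 < κ / τ by positivity) (show (1 / 20 : ℝ) < 1 by norm_num)
  have h6 : τ / 20 ^ (m + 1) ≤ κ := by
    rw [lt_div_iff₀ hτ0, one_div, inv_pow] at hm
    have h7 : τ / 20 ^ (m + 1) ≤ τ / 20 ^ m :=
      div_le_div_of_nonneg_left hτ0.le (by positivity) (pow_le_pow_right₀ (by norm_num) (Nat.le_succ _))
    have h8 : τ / 20 ^ m = (20 ^ m)⁻¹ * τ := by rw [div_eq_mul_inv, mul_comm]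
    linarith
  exact thm_mono h6 le_rfl le_rfl (step m)

end Pool.Agent.Helper34.GF
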